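import Pool.Agent.Q234.PL.Stm

/-!
# Project PL: the numerical constants (job PL-NU)
-/

set_option autoImplicit false

open scoped BigOperators Matrix
open Finset Pool.Agent.TH235.PP Pool.Agent.Q234.PL

namespace Pool.Agent.Q224.PL.NU

theorem aux24 (m : ℕ) (hm : 1 ≤ m) : (12 * m : ℝ) ≤ 24 ^ m := by
  induction m, hm using Nat.le_induction with
  | base => norm_num
  | succ n hn ih =>
    have h1 : (1 : ℝ) ≤ n := by exact_mod_cast hn
    push_cast
    rw [pow_succ]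
    nlinarith

theorem part1 (lam : ℝ) (h0 : 0 < lam) (h1 : lam < 1) (k : ℕ) (hk : lam ^ k ≤ (1 - lam) / 1176)
    (m N : ℕ) (hm : 1 ≤ m) (hN : (k + 4) * m ≤ N + 1) :
    6 * m * lam ^ (N + 1 - 2 * m) ≤ hh m lam * (1 - lam) := by
  have hl : 0 < 1 - lam := by linarith
  have hl1 : 1 - lam ≤ 1 := by linarith
  have e1 : lam ^ (N + 1 - 2 * m) ≤ lam ^ (k * m + (2 * m - 1)) := by
    apply pow_le_pow_of_le_one h0.le h1.le
    have : k * m + 4 * m ≤ N + 1 := by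
      rw [← add_mul]
      exact hN
    omega
  have e2 : (lam ^ k) ^ m ≤ ((1 - lam) / 1176) ^ m := pow_le_pow_left₀ (by positivity) hk m
  have e3 : (1 - lam) ^ m ≤ (1 - lam) := by
    calc (1 - lam) ^ m ≤ (1 - lam) ^ 1 := pow_le_pow_of_le_one hl.le hl1 hm
      _ = 1 - lam := pow_one _
  have e4 : (6 * m : ℝ) * ((1 - lam) / 1176) ^ m ≤ (1 - lam) / (2 * 49 ^ m) := by
    rw [div_pow, show (1176 : ℝ) = 24 * 49 by norm_num, mul_pow]
    have a1 := aux24 m hm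
    have p24 : (0 : ℝ) < 24 ^ m := by positivity
    have p49 : (0 : ℝ) < 49 ^ m := by positivity
    rw [mul_div_assoc', div_le_div_iff₀ (by positivity) (by positivity)]
    have a2 : (6 * m : ℝ) * (1 - lam) ^ m ≤ (6 * m : ℝ) * (1 - lam) :=
      mul_le_mul_of_nonneg_left e3 (by positivity)
    calc 6 * m * (1 - lam) ^ m * (2 * 49 ^ m) ≤ 6 * m * (1 - lam) * (2 * 49 ^ m) := by gcongr
      _ = (12 * m) * ((1 - lam) * 49 ^ m) := by ring
      _ ≤ 24 ^ m * ((1 - lam) * 49 ^ m) := by gcongr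
      _ = (1 - lam) * (24 ^ m * 49 ^ m) := by ring
  have ppos : 0 < lam ^ (2 * m - 1) := by positivity
  calc 6 * m * lam ^ (N + 1 - 2 * m) ≤ 6 * m * lam ^ (k * m + (2 * m - 1)) := by gcongr
    _ = 6 * m * (lam ^ k) ^ m * lam ^ (2 * m - 1) := by
        rw [pow_add, pow_mul]
        ring
    _ ≤ 6 * m * ((1 - lam) / 1176) ^ m * lam ^ (2 * m - 1) := by gcongr
    _ ≤ (1 - lam) / (2 * 49 ^ m) * lam ^ (2 * m - 1) := by gcongr
    _ = hh m lam * (1 - lam) := by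
        unfold hh
        ring

theorem part2 (lam : ℝ) (h0 : 0 < lam) (h1 : lam < 1) (a : ℝ)
    (ha : a = 81 * 49 / (lam ^ 2 * (1 - lam))) (C : ℝ) (hC : 4 * a ^ 4 ≤ 2 * C)
    (m : ℕ) (hm : 1 ≤ m) :
    4 ^ m * (1 + 4 * kap m lam) ^ (4 * m) ≤ Real.exp (2 * C * m ^ 2) := by
  have hl : 0 < 1 - lam := by linarith
  have hl1 : 1 - lam ≤ 1 := by linarith
  have hapos : 0 < a := by
    rw [ha]
    positivity
  have hp : 0 < lam ^ (2 * m - 1) := by positivity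
  have e0 : kap m lam = 20 * 49 ^ m / (lam ^ (2 * m - 1) * (1 - lam)) := by
    unfold kap hh
    field_simp
    norm_num
  have e1 : (1 - lam) ^ m ≤ (1 - lam) := by
    calc (1 - lam) ^ m ≤ (1 - lam) ^ 1 := pow_le_pow_of_le_one hl.le hl1 hm
      _ = 1 - lam := pow_one _
  have e2 : lam ^ (2 * m) ≤ lam ^ (2 * m - 1) := pow_le_pow_of_le_one h0.le h1.le (by omega)
  have e3 : (lam ^ 2) ^ m * (1 - lam) ^ m ≤ lam ^ (2 * m - 1) * (1 - lam) := by
    rw [← pow_mul]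
    gcongr
  have e4 : (1 : ℝ) ≤ 49 ^ m / (lam ^ (2 * m - 1) * (1 - lam)) := by
    rw [le_div_iff₀ (by positivity), one_mul]
    have b1 : lam ^ (2 * m - 1) ≤ 1 := pow_le_one₀ h0.le h1.le
    have b2 : (1 : ℝ) ≤ 49 ^ m := one_le_pow₀ (by norm_num)
    have b3 : lam ^ (2 * m - 1) * (1 - lam) ≤ 1 * 1 := by gcongr
    linarith
  have e5 : 1 + 4 * kap m lam ≤ a ^ m := by
    have c1 : 1 + 4 * kap m lam ≤ 81 * (49 ^ m / (lam ^ (2 * m - 1) * (1 - lam))) := by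
      rw [e0]
      have : 4 * (20 * 49 ^ m / (lam ^ (2 * m - 1) * (1 - lam))) =
          80 * (49 ^ m / (lam ^ (2 * m - 1) * (1 - lam))) := by ring
      rw [this]
      linarith
    have c2 : (81 : ℝ) ≤ 81 ^ m := by
      calc (81 : ℝ) = 81 ^ 1 := (pow_one _).symm
        _ ≤ 81 ^ m := pow_le_pow_right₀ (by norm_num) hm
    have c3 : (49 : ℝ) ^ m / (lam ^ (2 * m - 1) * (1 - lam)) ≤
        49 ^ m / ((lam ^ 2) ^ m * (1 - lam) ^ m) :=
      div_le_div_of_nonneg_left (by positivity) (by positivity) e3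
    calc 1 + 4 * kap m lam ≤ 81 * (49 ^ m / (lam ^ (2 * m - 1) * (1 - lam))) := c1
      _ ≤ 81 ^ m * (49 ^ m / ((lam ^ 2) ^ m * (1 - lam) ^ m)) := by gcongr
      _ = a ^ m := by
          rw [ha, div_pow, mul_pow, mul_pow]
          ring
  have hk0 : 0 ≤ kap m lam := by
    rw [e0]
    positivity
  have ha1 : 1 ≤ a ^ m := by linarith
  have hm1 : m ≤ m ^ 2 := by nlinarith
  have e6 : 4 ^ m * (1 + 4 * kap m lam) ^ (4 * m) ≤ (4 * a ^ 4) ^ (m ^ 2) := by
    calc 4 ^ m * (1 + 4 * kap m lam) ^ (4 * m) ≤ (4 : ℝ) ^ (m ^ 2) * (a ^ m) ^ (4 * m) := by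
          gcongr
          · norm_num
      _ = (4 * a ^ 4) ^ (m ^ 2) := by
          rw [mul_pow, ← pow_mul, ← pow_mul]
          congr 2
          ring
  have e7 : 4 * a ^ 4 ≤ Real.exp (2 * C) := by
    have := Real.add_one_le_exp (2 * C)
    linarith
  calc 4 ^ m * (1 + 4 * kap m lam) ^ (4 * m) ≤ (4 * a ^ 4) ^ (m ^ 2) := e6
    _ ≤ (Real.exp (2 * C)) ^ (m ^ 2) := by gcongr
    _ = Real.exp (2 * C * m ^ 2) := by
        rw [← Real.exp_nat_mul]
        congr 1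
        push_cast
        ring

theorem main : Pool.Agent.Q234.PL.Num := by
  intro lam h0 h1
  have hl : 0 < 1 - lam := by linarith
  obtain ⟨k, hk⟩ := exists_pow_lt_of_lt_one (show 0 < (1 - lam) / 1176 by positivity) h1
  set a : ℝ := 81 * 49 / (lam ^ 2 * (1 - lam)) with ha
  obtain ⟨c, hc⟩ := exists_nat_ge (4 * a ^ 4)
  refine ⟨k + 4 + c, by omega, fun m hm => ⟨fun N hN => ?_, ?_⟩⟩
  · refine part1 lam h0 h1 k hk.le m N hm (le_trans ?_ hN)
    exact Nat.mul_le_mul_right m (by omega)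
  · refine part2 lam h0 h1 a ha _ ?_ m hm
    push_cast
    have : (0 : ℝ) ≤ k := Nat.cast_nonneg k
    have : (0 : ℝ) ≤ c := Nat.cast_nonneg c
    linarith

end Pool.Agent.Q224.PL.NU
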