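import Pool.Agent.Q224.PL.Geo

/-!
# The algorithm, and its soundness
-/

set_option autoImplicit false

namespace Q224.PL

/-- Adjacency in the coded graph. -/
def adj (E : List (ℕ × ℕ)) (u v : ℕ) : Bool :=
  !decide (u = v) && (decide ((u, v) ∈ E) || decide ((v, u) ∈ E))

theorem adj_comm (E : List (ℕ × ℕ)) (u v : ℕ) : adj E u v = adj E v u := by
  unfold adj
  rw [Bool.or_comm, show decide (u = v) = decide (v = u) by rw [decide_eq_decide]; exact eq_comm]

/-- One step of the search of the graph without the edge `xy`. -/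
def clStep (V : List ℕ) (E : List (ℕ × ℕ)) (x y : ℕ) (A : List ℕ) : List ℕ :=
  V.filter (fun v => decide (v ∈ A) || A.any (fun u => adj E u v &&
    !(decide (u = x) && decide (v = y) || decide (u = y) && decide (v = x))))

/-- The vertices reached from `r` in the graph without the edge `xy`. -/
def cl (V : List ℕ) (E : List (ℕ × ℕ)) (r x y : ℕ) : List ℕ :=
  V.foldl (fun A _ => clStep V E x y A) [r]

/-- A state: nothing, or `(x, y, t)`: everything on the side of `r` of the edge `xy` has been
described, and `x` is at distance `t` from the last vertex. -/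
abbrev St := Option (ℕ × ℕ × ℕ)

/-- The vertices described at a state. -/
def Hs (V : List ℕ) (E : List (ℕ × ℕ)) (r : ℕ) (st : St) : List ℕ :=
  st.elim [] (fun p => cl V E r p.1 p.2.1)

/-- One step of the walk through the set `S`; the walk is stored backwards. -/
def goStep (E : List (ℕ × ℕ)) (S L : List ℕ) : List ℕ :=
  ((S.filter (fun v => !decide (v ∈ L) && adj E (L.head?.getD 0) v)).head?).elim L
    (fun v => v :: L)

/-- The walk through `S` from `s`, backwards. -/
def go (V : List ℕ) (E : List (ℕ × ℕ)) (S : List ℕ) (s : ℕ) : List ℕ :=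
  V.foldl (fun L _ => goStep E S L) [s]

/-- The walk from `s` through `H` without `H'` is a column which can be added to the state `st'` with
the set `H'`. -/
def colOK (V : List ℕ) (E : List (ℕ × ℕ)) (H' : List ℕ) (st' : St) (H : List ℕ) (s : ℕ) : Bool :=
  (decide (s ∈ H.filter (fun v => !decide (v ∈ H'))) &&
    (H.filter (fun v => !decide (v ∈ H'))).all (fun v => decide (v ∈
      go V E (H.filter (fun v => !decide (v ∈ H'))) s)) &&
    H'.all (fun v => decide (v ∈ H))) &&
  (((List.range (go V E (H.filter (fun v => !decide (v ∈ H'))) s).length).all (fun i =>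
    (List.range (go V E (H.filter (fun v => !decide (v ∈ H'))) s).length).all (fun j =>
      decide (adj E ((go V E (H.filter (fun v => !decide (v ∈ H'))) s).reverse.getD i 0)
        ((go V E (H.filter (fun v => !decide (v ∈ H'))) s).reverse.getD j 0) =
        (decide (j = i + 1) || decide (i = j + 1)))))) &&
  st'.elim true (fun p =>
    decide ((go V E (H.filter (fun v => !decide (v ∈ H'))) s).reverse[p.2.2]? = some p.2.1) &&
    H'.all (fun u => (go V E (H.filter (fun v => !decide (v ∈ H'))) s).all (fun v =>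
      decide (adj E u v = (decide (u = p.1) && decide (v = p.2.1)))))))

/-- The column ends correctly. -/
def outOK (V : List ℕ) (E : List (ℕ × ℕ)) (H' : List ℕ) (st : St) (H : List ℕ) (s : ℕ) : Bool :=
  st.elim false (fun p =>
    decide ((go V E (H.filter (fun v => !decide (v ∈ H'))) s)[p.2.2]? = some p.1))

/-- All possible states. -/
def states (V : List ℕ) : List St :=
  V.flatMap (fun x => V.flatMap (fun y => (List.range V.length).map (fun t => some (x, y, t))))

/-- One round of the table of the reachable states. -/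
def tbStep (V : List ℕ) (E : List (ℕ × ℕ)) (r : ℕ) (T : List St) : List St :=
  none :: (states V).filter (fun st => T.any (fun st' => V.any (fun s =>
    colOK V E (Hs V E r st') st' (Hs V E r st) s && outOK V E (Hs V E r st') st (Hs V E r st) s)))

/-- The table of the reachable states. -/
def tb (V : List ℕ) (E : List (ℕ × ℕ)) (r : ℕ) : List St :=
  V.foldl (fun T _ => tbStep V E r T) [none]

/-- **The test.** -/
def test (x : List ℕ × List (ℕ × ℕ)) : Bool :=
  x.1.any (fun r => (tb x.1 x.2 r).any (fun st' => x.1.any (fun s =>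
    colOK x.1 x.2 (Hs x.1 x.2 r st') st' x.1 s)))

/-- Iterating by a fold. -/
theorem foldl_iter {σ β : Type} (F : σ → σ) (l : List β) (s : σ) :
    l.foldl (fun A _ => F A) s = F^[l.length] s := by
  induction l generalizing s with
  | nil => rfl
  | cons a l ih => rw [List.foldl_cons, ih, List.length_cons, Function.iterate_succ_apply]

/-! ### the walk -/

theorem goStep_prop {E : List (ℕ × ℕ)} {S L : List ℕ} (h1 : L.Nodup) (h2 : ∀ v ∈ L, v ∈ S) :
    (goStep E S L).Nodup ∧ ∀ v ∈ goStep E S L, v ∈ S := by
  unfold goStep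
  rcases h : (S.filter (fun v => !decide (v ∈ L) && adj E (L.head?.getD 0) v)).head? with _ | w
  · exact ⟨h1, h2⟩
  · have hw := List.mem_of_mem_head? h
    simp only [List.mem_filter, Bool.and_eq_true, Bool.not_eq_true', decide_eq_false_iff_not] at hw
    simp only [Option.elim]
    refine ⟨List.nodup_cons.2 ⟨hw.2.1, h1⟩, ?_⟩
    intro v hv
    rcases List.mem_cons.1 hv with rfl | hv
    · exact hw.1
    · exact h2 v hv

theorem go_prop {V : List ℕ} {E : List (ℕ × ℕ)} {S : List ℕ} {s : ℕ} (hs : s ∈ S) :
    (go V E S s).Nodup ∧ ∀ v ∈ go V E S s, v ∈ S := by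
  unfold go
  rw [foldl_iter]
  generalize V.length = k
  induction k with
  | zero => exact ⟨by simp, by simpa using hs⟩
  | succ k ih =>
    rw [Function.iterate_succ_apply']
    exact goStep_prop ih.1 ih.2

/-! ### soundness -/

/-- The list `L` of vertices, with the parameters `τ`, describes the graph on its elements. -/
structure Desc (E : List (ℕ × ℕ)) (L : List ℕ) (τ : ℕ → ℕ) : Prop where
  nodup : L.Nodup
  val : Val L.length τ
  zero : ∀ b, L.length ≤ b → τ b = 0
  adj : ∀ i j, i < L.length → j < L.length →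
    (adj E (L.getD i 0) (L.getD j 0) = true ↔ tA L.length τ i j)

/-- The state is described. -/
def Port (L : List ℕ) (τ : ℕ → ℕ) (x t : ℕ) : Prop :=
  t < L.length ∧ L.getD (L.length - 1 - t) 0 = x ∧ ∀ b, L.length - t ≤ b → τ b = 0

theorem getD_inj {L : List ℕ} (h : L.Nodup) {i j : ℕ} (hi : i < L.length) (hj : j < L.length)
    (he : L.getD i 0 = L.getD j 0) : i = j := by
  rw [List.getD_eq_getElem _ _ hi, List.getD_eq_getElem _ _ hj] at he
  exact (h.getElem_inj_iff).1 he

theorem ext_none {E : List (ℕ × ℕ)} {C : List ℕ} (hC : C.Nodup)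
    (hadj : ∀ i j, i < C.length → j < C.length →
      adj E (C.getD i 0) (C.getD j 0) = (decide (j = i + 1) || decide (i = j + 1))) :
    Desc E C (fun _ => 0) := by
  refine ⟨hC, fun b hb => absurd hb (lt_irrefl 0), fun _ _ => rfl, fun i j hi hj => ?_⟩
  rw [hadj i j hi hj, Bool.or_eq_true, decide_eq_true_eq, decide_eq_true_eq]
  constructor
  · rintro (h | h)
    · exact ⟨j, by omega, by omega, Or.inl (by simp only; omega)⟩
    · exact ⟨i, by omega, by omega, Or.inr (by simp only; omega)⟩
  · rintro ⟨b, h1, h2, h3⟩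
    simp only at h3
    omega

theorem ext_some {E : List (ℕ × ℕ)} {L C : List ℕ} {τ : ℕ → ℕ} {x y t : ℕ} (hL : Desc E L τ)
    (hp : Port L τ x t) (hC : C.Nodup) (hd : ∀ v ∈ L, v ∉ C)
    (hadj : ∀ i j, i < C.length → j < C.length →
      adj E (C.getD i 0) (C.getD j 0) = (decide (j = i + 1) || decide (i = j + 1)))
    (hy : t < C.length ∧ C.getD t 0 = y)
    (hx : ∀ u ∈ L, ∀ v ∈ C, adj E u v = (decide (u = x) && decide (v = y))) :
    Desc E (L ++ C) (Function.update τ L.length t) := by
  obtain ⟨hp1, hp2, hp3⟩ := hp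
  obtain ⟨hy1, hy2⟩ := hy
  set m := L.length with hm
  set c := C.length with hc
  set τ' := Function.update τ m t with hτ'
  have t1 : τ' m = t := Function.update_self _ _ _
  have t2 : ∀ b, b ≠ m → τ' b = τ b := fun b hb => Function.update_of_ne hb _ _
  have t3 : ∀ b, m < b → τ' b = 0 := fun b hb => by rw [t2 b (by omega)]; exact hL.zero b hb.le
  have hlen : (L ++ C).length = m + c := by rw [List.length_append]
  have gl : ∀ i, i < m → (L ++ C).getD i 0 = L.getD i 0 := fun i hi =>
    List.getD_append _ _ _ _ hi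
  have gr : ∀ i, m ≤ i → (L ++ C).getD i 0 = C.getD (i - m) 0 := fun i hi =>
    List.getD_append_right _ _ _ _ hi
  have memL : ∀ i, i < m → L.getD i 0 ∈ L := fun i hi => by
    rw [List.getD_eq_getElem _ _ hi]; exact List.getElem_mem _
  have memC : ∀ i, i < c → C.getD i 0 ∈ C := fun i hi => by
    rw [List.getD_eq_getElem _ _ hi]; exact List.getElem_mem _
  have hlow : ∀ b, b < m → b + τ' b < m := by
    intro b hb
    rw [t2 b (by omega)]
    rcases Nat.eq_zero_or_pos (τ b) with h | h
    · omega
    · exact (hL.val b h).2.1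
  -- edges between the two parts
  have cross : ∀ i j, i < m → m ≤ j → j < m + c →
      (adj E (L.getD i 0) (C.getD (j - m) 0) = true ↔ tA (m + c) τ' i j) := by
    intro i j hi hj hj'
    rw [hx _ (memL i hi) _ (memC (j - m) (by omega)), Bool.and_eq_true, decide_eq_true_eq,
      decide_eq_true_eq]
    constructor
    · rintro ⟨h1, h2⟩
      have e1 : i = m - 1 - t := getD_inj hL.nodup hi (by omega) (by rw [h1, hp2])
      have e2 : j - m = t := getD_inj hC (by omega) (by omega) (by rw [h2, hy2])
      exact ⟨m, by omega, by omega, Or.inl ⟨by rw [t1]; omega, by rw [t1]; omega⟩⟩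
    · rintro ⟨b, h1, h2, h3⟩
      have hbm : b = m := by
        rcases lt_trichotomy b m with h | h | h
        · have := hlow b h
          omega
        · exact h
        · have := t3 b h
          omega
      rw [hbm, t1] at h3
      rcases h3 with h3 | h3
      · have e1 : i = m - 1 - t := by omega
        have e2 : j - m = t := by omega
        rw [e1, e2]
        exact ⟨hp2, hy2⟩
      · omega
  refine ⟨?_, ?_, ?_, ?_⟩
  · exact List.nodup_append'.2 ⟨hL.nodup, hC, fun v hv hv' => hd v hv hv'⟩
  · rw [hlen]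
    intro b hb
    by_cases hbm : b = m
    · subst hbm
      rw [t1] at hb ⊢
      refine ⟨by omega, by omega, fun b' hne hb' => ?_⟩
      rw [t2 b' hne] at hb'
      by_contra hc
      have := hp3 b' (by omega)
      omega
    · rw [t2 b hbm] at hb ⊢
      obtain ⟨h1, h2, h3⟩ := hL.val b hb
      refine ⟨h1, by omega, fun b' hne hb' => ?_⟩
      by_cases hbm' : b' = m
      · omega
      · rw [t2 b' hbm'] at hb'
        exact h3 b' hne hb'
  · rw [hlen]
    intro b hb
    exact t3 b (by omega)
  · rw [hlen]
    intro i j hi hj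
    rcases Nat.lt_or_ge i m with hi' | hi' <;> rcases Nat.lt_or_ge j m with hj' | hj'
    · rw [gl i hi', gl j hj', hL.adj i j hi' hj']
      constructor
      · rintro ⟨b, h1, h2, h3⟩
        exact ⟨b, h1, by omega, by rw [t2 b (by omega)]; exact h3⟩
      · rintro ⟨b, h1, h2, h3⟩
        have hbm : b < m := by
          by_contra hge
          rcases Nat.eq_or_lt_of_le (Nat.not_lt.1 hge) with h | h
          · rw [← h, t1] at h3; omega
          · rw [t3 b h] at h3; omega
        exact ⟨b, h1, hbm, by rw [t2 b (by omega)] at h3; exact h3⟩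
    · rw [gl i hi', gr j hj']
      exact cross i j hi' hj' hj
    · rw [gr i hi', gl j hj', adj_comm, cross j i hj' hi' hi]
      exact ⟨tA.symm, tA.symm⟩
    · rw [gr i hi', gr j hj', hadj _ _ (by omega) (by omega), Bool.or_eq_true,
        decide_eq_true_eq, decide_eq_true_eq]
      constructor
      · rintro (h | h)
        · exact ⟨j, by omega, by omega, Or.inl (by rw [t3 j (by omega)]; omega)⟩
        · exact ⟨i, by omega, by omega, Or.inr (by rw [t3 i (by omega)]; omega)⟩
      · rintro ⟨b, h1, h2, h3⟩
        have hbm : m < b := by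
          by_contra hge
          rcases Nat.eq_or_lt_of_le (Nat.not_lt.1 hge) with h | h
          · rw [h, t1] at h3; omega
          · have := hlow b h; omega
        rw [t3 b hbm] at h3
        omega

/-- The invariant of the table. -/
def Inv (V : List ℕ) (E : List (ℕ × ℕ)) (r : ℕ) (st : St) (L : List ℕ) (τ : ℕ → ℕ) : Prop :=
  Desc E L τ ∧ (∀ v, v ∈ L ↔ v ∈ Hs V E r st) ∧
    ∀ x y t, st = some (x, y, t) → Port L τ x t

theorem inv_none (V : List ℕ) (E : List (ℕ × ℕ)) (r : ℕ) : Inv V E r none [] (fun _ => 0) := by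
  refine ⟨⟨by simp, fun b hb => absurd hb (lt_irrefl 0), fun _ _ => rfl, ?_⟩, ?_, ?_⟩
  · intro i j hi
    exact absurd hi (Nat.not_lt_zero _)
  · intro v; simp [Hs]
  · intro x y t h; cases h

/-- Adding a column. -/
theorem colOK_sound {V : List ℕ} {E : List (ℕ × ℕ)} {r : ℕ} {st' : St} {H : List ℕ} {s : ℕ}
    {L' : List ℕ} {τ' : ℕ → ℕ} (hI : Inv V E r st' L' τ')
    (h : colOK V E (Hs V E r st') st' H s = true) :
    ∃ L τ, Desc E L τ ∧ (∀ v, v ∈ L ↔ v ∈ H) ∧
      ∀ x t, (go V E (H.filter (fun v => !decide (v ∈ Hs V E r st'))) s)[t]? = some x →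
        Port L τ x t := by
  unfold colOK at h
  simp only [Bool.and_eq_true] at h
  obtain ⟨⟨⟨h1, h2⟩, h3⟩, h4, h5⟩ := h
  set S := H.filter (fun v => !decide (v ∈ Hs V E r st')) with hS
  set D := go V E S s with hD
  rw [decide_eq_true_eq] at h1
  simp only [List.all_eq_true, decide_eq_true_eq] at h2 h3
  have hgp := go_prop (V := V) (E := E) h1
  rw [← hD] at hgp
  have hCn : D.reverse.Nodup := List.nodup_reverse.2 hgp.1
  have hadj : ∀ i j, i < D.reverse.length → j < D.reverse.length →
      adj E (D.reverse.getD i 0) (D.reverse.getD j 0) =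
        (decide (j = i + 1) || decide (i = j + 1)) := by
    intro i j hi hj
    rw [List.length_reverse] at hi hj
    simp only [List.all_eq_true, List.mem_range, decide_eq_true_eq] at h4
    exact h4 i hi j hj
  have hmemS : ∀ v, v ∈ S ↔ v ∈ H ∧ v ∉ Hs V E r st' := by
    intro v; simp [hS]
  have hmemD : ∀ v, v ∈ D ↔ v ∈ S := fun v => ⟨hgp.2 v, fun hv => h2 v hv⟩
  have hmem : ∀ v, v ∈ L' ++ D.reverse ↔ v ∈ H := by
    intro v
    rw [List.mem_append, List.mem_reverse, hI.2.1 v, hmemD, hmemS]
    constructor
    · rintro (hv | hv)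
      · exact h3 v hv
      · exact hv.1
    · intro hv
      by_cases hv' : v ∈ Hs V E r st'
      · exact Or.inl hv'
      · exact Or.inr ⟨hv, hv'⟩
  have hport : ∀ τ : ℕ → ℕ, (∀ b, L'.length < b → τ b = 0) → ∀ x t, D[t]? = some x →
      Port (L' ++ D.reverse) τ x t := by
    intro τ hτ x t hx
    have hlt : t < D.length := by
      by_contra hc
      rw [List.getElem?_eq_none (by omega)] at hx
      cases hx
    refine ⟨by rw [List.length_append, List.length_reverse]; omega, ?_, ?_⟩
    · rw [List.length_append, List.length_reverse,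
        List.getD_append_right _ _ _ _ (by omega),
        List.getD_eq_getElem _ _ (by rw [List.length_reverse]; omega), List.getElem_reverse]
      rw [List.getElem?_eq_getElem hlt] at hx
      have e : D.length - 1 - (L'.length + D.length - 1 - t - L'.length) = t := by omega
      simp only [e]
      exact Option.some.inj hx
    · intro b hb
      rw [List.length_append, List.length_reverse] at hb
      exact hτ b (by omega)
  rcases st' with _ | ⟨x', y', t'⟩
  · have hL' : L' = [] := by
      rw [List.eq_nil_iff_forall_not_mem]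
      intro v hv
      have := (hI.2.1 v).1 hv
      simp [Hs] at this
    subst hL'
    refine ⟨D.reverse, fun _ => 0, ext_none hCn hadj, by simpa using hmem, ?_⟩
    intro x t hx
    simpa using hport (fun _ => 0) (fun _ _ => rfl) x t hx
  · simp only [Option.elim, Bool.and_eq_true, decide_eq_true_eq, List.all_eq_true] at h5
    obtain ⟨h5, h6⟩ := h5
    have hlt : t' < D.reverse.length := by
      by_contra hc
      rw [List.getElem?_eq_none (by omega)] at h5
      cases h5
    refine ⟨L' ++ D.reverse, Function.update τ' L'.length t',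
      ext_some (y := y') hI.1 (hI.2.2 x' y' t' rfl) hCn ?_ hadj ⟨hlt, ?_⟩ ?_, hmem, hport _ ?_⟩
    · intro v hv hv'
      rw [List.mem_reverse, hmemD, hmemS] at hv'
      exact hv'.2 ((hI.2.1 v).1 hv)
    · rw [List.getD_eq_getElem?_getD, h5]; rfl
    · intro u hu v hv
      exact h6 u ((hI.2.1 u).1 hu) v (List.mem_reverse.1 hv)
    · intro b hb
      rw [Function.update_of_ne (by omega)]
      exact hI.1.zero b hb.le

theorem tb_sound (V : List ℕ) (E : List (ℕ × ℕ)) (r : ℕ) :
    ∀ st ∈ tb V E r, ∃ L τ, Inv V E r st L τ := by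
  unfold tb
  rw [foldl_iter]
  generalize V.length = k
  induction k with
  | zero =>
    intro st hst
    rw [Function.iterate_zero, id, List.mem_singleton] at hst
    subst hst
    exact ⟨_, _, inv_none V E r⟩
  | succ k ih =>
    intro st hst
    rw [Function.iterate_succ_apply'] at hst
    unfold tbStep at hst
    rcases List.mem_cons.1 hst with rfl | hst
    · exact ⟨_, _, inv_none V E r⟩
    · rw [List.mem_filter, List.any_eq_true] at hst
      obtain ⟨-, st', hst', hs⟩ := hst
      rw [List.any_eq_true] at hs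
      obtain ⟨s, -, hs⟩ := hs
      rw [Bool.and_eq_true] at hs
      obtain ⟨L', τ', hI⟩ := ih st' hst'
      obtain ⟨L, τ, hD, hm, hp⟩ := colOK_sound hI hs.1
      refine ⟨L, τ, hD, hm, ?_⟩
      rintro x y t rfl
      have := hs.2
      simp only [outOK, Option.elim, decide_eq_true_eq] at this
      exact hp x t this

/-- The coded graph: the vertices are the elements of the first list, the edges are given by the
second list. -/
def cG (x : List ℕ × List (ℕ × ℕ)) : SimpleGraph {v : ℕ // v ∈ x.1} where
  Adj u v := u ≠ v ∧ ((u.1, v.1) ∈ x.2 ∨ (v.1, u.1) ∈ x.2)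
  symm := ⟨fun _ _ h => ⟨h.1.symm, h.2.symm⟩⟩
  loopless := ⟨fun _ h => h.1 rfl⟩

theorem cG_adj (x : List ℕ × List (ℕ × ℕ)) (u v : {v : ℕ // v ∈ x.1}) :
    (cG x).Adj u v ↔ adj x.2 u.1 v.1 = true := by
  simp only [cG, adj, Bool.and_eq_true, Bool.not_eq_true', decide_eq_false_iff_not,
    Bool.or_eq_true, decide_eq_true_eq, ne_eq, Subtype.ext_iff]

theorem test_sound {x : List ℕ × List (ℕ × ℕ)} (h : test x = true) :
    ∃ n τ, 1 ≤ n ∧ Val n τ ∧ Nonempty (cG x ≃g tG n τ) := by
  unfold test at h
  rw [List.any_eq_true] at h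
  obtain ⟨r, hr, h⟩ := h
  rw [List.any_eq_true] at h
  obtain ⟨st', hst', h⟩ := h
  rw [List.any_eq_true] at h
  obtain ⟨s, hs, h⟩ := h
  obtain ⟨L', τ', hI⟩ := tb_sound x.1 x.2 r st' hst'
  obtain ⟨L, τ, hD, hm, -⟩ := colOK_sound hI h
  refine ⟨L.length, τ, ?_, hD.val, ?_⟩
  · exact List.length_pos_of_mem ((hm r).2 hr)
  · let e1 : Fin L.length ≃ {v // v ∈ L} := List.Nodup.getEquiv L hD.nodup
    let e2 : {v // v ∈ L} ≃ {v // v ∈ x.1} := Equiv.subtypeEquivRight hm
    refine ⟨(⟨e1.trans e2, ?_⟩ : tG L.length τ ≃g cG x).symm⟩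
    intro i j
    rw [cG_adj]
    have := hD.adj i j i.2 j.2
    rw [List.getD_eq_getElem _ _ i.2, List.getD_eq_getElem _ _ j.2] at this
    exact this

end Q224.PL
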