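import Pool.Agent.Q224.PL.Alg

/-!
# Completeness of the algorithm
-/

set_option autoImplicit false

namespace Q224.PL

/-- The graph coded by `V`, `E` is the combinatorial tree, the vertex number `i` being `L i`. -/
structure Lay (V : List ℕ) (E : List (ℕ × ℕ)) (n : ℕ) (τ : ℕ → ℕ) (L : ℕ → ℕ) : Prop where
  pos : 1 ≤ n
  val : Val n τ
  mem : ∀ v, v ∈ V ↔ ∃ i, i < n ∧ v = L i
  inj : ∀ i j, i < n → j < n → L i = L j → i = j
  adj : ∀ i j, i < n → j < n → (adj E (L i) (L j) = true ↔ tA n τ i j)

theorem Lay.le_length {V : List ℕ} {E : List (ℕ × ℕ)} {n : ℕ} {τ L : ℕ → ℕ}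
    (h : Lay V E n τ L) : n ≤ V.length := by
  classical
  have h1 : ((Finset.range n).image L).card = n := by
    rw [Finset.card_image_of_injOn, Finset.card_range]
    intro i hi j hj he
    exact h.inj i j (Finset.mem_range.1 hi) (Finset.mem_range.1 hj) he
  have h2 : (Finset.range n).image L ⊆ V.toFinset := by
    intro v hv
    obtain ⟨i, hi, rfl⟩ := Finset.mem_image.1 hv
    exact List.mem_toFinset.2 ((h.mem _).2 ⟨i, Finset.mem_range.1 hi, rfl⟩)
  calc n = ((Finset.range n).image L).card := h1.symm
    _ ≤ V.toFinset.card := Finset.card_le_card h2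
    _ ≤ V.length := List.toFinset_card_le V

/-- Edges of the tree do not leave the part below a cut, except the edge of the cut. -/
theorem tA_cut {n : ℕ} {τ : ℕ → ℕ} (hv : Val n τ) {b : ℕ} (hb : 0 < τ b) {i j : ℕ}
    (h : tA n τ i j) (hi : i < b) (hj : b ≤ j) : i = b - 1 - τ b ∧ j = b + τ b := by
  obtain ⟨c, h1, h2, h3⟩ := h
  rcases lt_trichotomy c b with hc | hc | hc
  · exfalso
    rcases Nat.eq_zero_or_pos (τ c) with h0 | h0
    · omega
    · have := (hv c h0).2.2 b (by omega) hb
      omega
  · subst hc; omega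
  · exfalso
    rcases Nat.eq_zero_or_pos (τ c) with h0 | h0
    · omega
    · have := (hv c h0).2.2 b (by omega) hb
      omega

theorem cl_mem {V : List ℕ} {E : List (ℕ × ℕ)} {n : ℕ} {τ L : ℕ → ℕ} (h : Lay V E n τ L) {b : ℕ}
    (hb : 0 < τ b) (v : ℕ) :
    v ∈ cl V E (L 0) (L (b - 1 - τ b)) (L (b + τ b)) ↔ ∃ i, i < b ∧ v = L i := by
  obtain ⟨hb1, hb2, hb3⟩ := h.val b hb
  unfold cl
  rw [foldl_iter]
  have step : ∀ A v, v ∈ clStep V E (L (b - 1 - τ b)) (L (b + τ b)) A ↔ v ∈ V ∧ (v ∈ A ∨
      ∃ u ∈ A, adj E u v = true ∧ ¬ ((u = L (b - 1 - τ b) ∧ v = L (b + τ b)) ∨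
        (u = L (b + τ b) ∧ v = L (b - 1 - τ b)))) := by
    intro A v
    simp [clStep, List.mem_filter, imp_iff_not_or]
  constructor
  · generalize V.length = k
    induction k generalizing v with
    | zero =>
      intro hv
      rw [Function.iterate_zero, id, List.mem_singleton] at hv
      exact ⟨0, by omega, hv⟩
    | succ k ih =>
      intro hv
      rw [Function.iterate_succ_apply', step] at hv
      obtain ⟨hv1, hv2 | ⟨u, hu, hv2, hv3⟩⟩ := hv
      · exact ih v hv2
      · obtain ⟨i, hi, rfl⟩ := ih u hu
        obtain ⟨j, hj, rfl⟩ := (h.mem v).1 hv1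
        rw [h.adj i j (by omega) hj] at hv2
        refine ⟨j, ?_, rfl⟩
        by_contra hc
        have := tA_cut h.val hb hv2 hi (by omega)
        apply hv3
        left
        rw [this.1, this.2]
        exact ⟨rfl, rfl⟩
  · -- the vertex number `i` is reached after `i` rounds
    have mono : ∀ k i, i < n → L i ∈ (clStep V E (L (b - 1 - τ b)) (L (b + τ b)))^[k] [L 0] →
        ∀ m, k ≤ m → L i ∈ (clStep V E (L (b - 1 - τ b)) (L (b + τ b)))^[m] [L 0] := by
      intro k i hi hk m hm
      induction m, hm using Nat.le_induction with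
      | base => exact hk
      | succ m _ ih =>
        rw [Function.iterate_succ_apply', step]
        exact ⟨(h.mem _).2 ⟨i, hi, rfl⟩, Or.inl ih⟩
    have next : ∀ k i j c, i < b → j < b → 1 ≤ c → c < b →
        ((i + τ c + 1 = c ∧ j = c + τ c) ∨ (j + τ c + 1 = c ∧ i = c + τ c)) →
        L i ∈ (clStep V E (L (b - 1 - τ b)) (L (b + τ b)))^[k] [L 0] →
        L j ∈ (clStep V E (L (b - 1 - τ b)) (L (b + τ b)))^[k + 1] [L 0] := by
      intro k i j c hi hj hc1 hc2 hc3 hk
      rw [Function.iterate_succ_apply', step]
      refine ⟨(h.mem _).2 ⟨j, by omega, rfl⟩, Or.inr ⟨L i, hk, ?_, ?_⟩⟩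
      · rw [h.adj i j (by omega) (by omega)]
        exact ⟨c, hc1, by omega, hc3⟩
      · rintro (⟨_, h2⟩ | ⟨h1, _⟩)
        · have := h.inj _ _ (by omega) hb2 h2
          omega
        · have := h.inj _ _ (by omega) hb2 h1
          omega
    have main : ∀ i, i < b → L i ∈ (clStep V E (L (b - 1 - τ b)) (L (b + τ b)))^[i] [L 0] := by
      intro i
      induction i using Nat.strong_induction_on with
      | _ i ih =>
        intro hi
        rcases Nat.eq_zero_or_pos i with rfl | hpos
        · simp
        · rcases Nat.eq_zero_or_pos (τ i) with h0 | h0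
          · have := next (i - 1) (i - 1) i i (by omega) hi hpos hi (Or.inl ⟨by omega, by omega⟩)
              (ih (i - 1) (by omega) (by omega))
            rwa [show i - 1 + 1 = i by omega] at this
          · obtain ⟨h1, h2, h3⟩ := h.val i h0
            have h4 := h3 b (by omega) hb
            have r1 := ih (i - 1 - τ i) (by omega) (by omega)
            have r2 := next _ (i - 1 - τ i) (i + τ i) i (by omega) (by omega) hpos hi
              (Or.inl ⟨by omega, rfl⟩) r1
            have r3 : ∀ m, m ≤ τ i → L (i + τ i - m) ∈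
                (clStep V E (L (b - 1 - τ b)) (L (b + τ b)))^[i - 1 - τ i + 1 + m] [L 0] := by
              intro m
              induction m with
              | zero => intro _; exact r2
              | succ m ihm =>
                intro hm
                have hz : τ (i + τ i - m) = 0 := by
                  by_contra hne
                  have := h3 (i + τ i - m) (by omega) (by omega)
                  omega
                exact next _ (i + τ i - m) (i + τ i - (m + 1)) (i + τ i - m) (by omega) (by omega)
                  (by omega) (by omega) (Or.inr ⟨by omega, by omega⟩) (ihm (by omega))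
            have := r3 (τ i) le_rfl
            rwa [show i + τ i - τ i = i by omega,
              show i - 1 - τ i + 1 + τ i = i by omega] at this
    rintro ⟨i, hi, rfl⟩
    exact mono i i (by omega) (main i hi) _ (by have := h.le_length; omega)

theorem tA_col {n : ℕ} {τ : ℕ → ℕ} {a b : ℕ} (hbn : b ≤ n) (hz : ∀ c, a < c → c < b → τ c = 0)
    {i j : ℕ} (hi : a ≤ i) (hi' : i < b) (hj : a ≤ j) (hj' : j < b) :
    tA n τ i j ↔ j = i + 1 ∨ i = j + 1 := by
  constructor
  · rintro ⟨c, h1, h2, h3⟩
    have := hz c (by omega) (by omega)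
    omega
  · rintro (h | h)
    · have := hz j (by omega) (by omega)
      exact ⟨j, by omega, by omega, Or.inl (by omega)⟩
    · have := hz i (by omega) (by omega)
      exact ⟨i, by omega, by omega, Or.inr (by omega)⟩

/-- The walk through a column. -/
theorem go_col {V : List ℕ} {E : List (ℕ × ℕ)} {n : ℕ} {τ L : ℕ → ℕ} (h : Lay V E n τ L)
    {a b : ℕ} (hab : a < b) (hbn : b ≤ n) (hz : ∀ c, a < c → c < b → τ c = 0)
    {S : List ℕ} (hS : ∀ v, v ∈ S ↔ ∃ i, a ≤ i ∧ i < b ∧ v = L i) :
    go V E S (L a) = ((List.range (b - a)).map (fun i => L (a + i))).reverse := by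
  unfold go
  rw [foldl_iter]
  have main : ∀ k, (goStep E S)^[k] [L a] =
      ((List.range (min k (b - 1 - a) + 1)).map (fun i => L (a + i))).reverse := by
    intro k
    induction k with
    | zero => simp
    | succ k ih =>
      rw [Function.iterate_succ_apply', ih]
      generalize hm : min k (b - 1 - a) = m
      have hmb : a + m < b := by omega
      unfold goStep
      have hhead : ((List.range (m + 1)).map (fun i => L (a + i))).reverse.head?.getD 0
          = L (a + m) := by
        rw [List.range_succ]; simp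
      rw [hhead]
      have hmem : ∀ j, a ≤ j → j < b →
          (L j ∈ ((List.range (m + 1)).map (fun i => L (a + i))).reverse ↔ j ≤ a + m) := by
        intro j hj hj'
        rw [List.mem_reverse, List.mem_map]
        constructor
        · rintro ⟨i, hi, he⟩
          rw [List.mem_range] at hi
          have := h.inj _ _ (by omega) (by omega) he
          omega
        · intro hjm
          exact ⟨j - a, List.mem_range.2 (by omega), by rw [show a + (j - a) = j by omega]⟩
      have hfil : ∀ v, v ∈ S.filter (fun v => !decide (v ∈ ((List.range (m + 1)).map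
          (fun i => L (a + i))).reverse) && adj E (L (a + m)) v) ↔
          a + m + 1 < b ∧ v = L (a + m + 1) := by
        intro v
        rw [List.mem_filter, Bool.and_eq_true, Bool.not_eq_true', decide_eq_false_iff_not, hS]
        constructor
        · rintro ⟨⟨j, hj, hj', rfl⟩, h1, h2⟩
          rw [hmem j hj hj'] at h1
          rw [h.adj _ _ (by omega) (by omega), tA_col hbn hz (by omega) hmb hj hj'] at h2
          have : j = a + m + 1 := by omega
          subst this
          exact ⟨hj', rfl⟩
        · rintro ⟨h1, rfl⟩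
          refine ⟨⟨_, by omega, h1, rfl⟩, ?_, ?_⟩
          · rw [hmem _ (by omega) h1]; omega
          · rw [h.adj _ _ (by omega) (by omega), tA_col hbn hz (by omega) hmb (by omega) h1]
            left; rfl
      rcases hh : (S.filter (fun v => !decide (v ∈ ((List.range (m + 1)).map
          (fun i => L (a + i))).reverse) && adj E (L (a + m)) v)).head? with _ | w
      · simp only [Option.elim]
        have hlt : ¬ a + m + 1 < b := by
          intro hlt
          have := (hfil _).2 ⟨hlt, rfl⟩
          rw [List.head?_eq_none_iff] at hh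
          rw [hh] at this
          exact absurd this List.not_mem_nil
        have : min (k + 1) (b - 1 - a) = m := by omega
        rw [this]
      · simp only [Option.elim]
        have hw := (hfil w).1 (List.mem_of_mem_head? hh)
        have : min (k + 1) (b - 1 - a) = m + 1 := by omega
        rw [this, List.range_succ (n := m + 1), List.map_append, List.reverse_append, hw.2]
        simp [Nat.add_assoc]
  rw [main, min_eq_right (by have := h.le_length; omega), show b - 1 - a + 1 = b - a by omega]

/-- The set of a state which corresponds to a cut `b` (or to the empty part if `b = 0`). -/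
def stOf (τ L : ℕ → ℕ) (b : ℕ) : St :=
  if b = 0 then none else some (L (b - 1 - τ b), L (b + τ b), τ b)

theorem Hs_mem {V : List ℕ} {E : List (ℕ × ℕ)} {n : ℕ} {τ L : ℕ → ℕ} (h : Lay V E n τ L) {b : ℕ}
    (hb : b = 0 ∨ 0 < τ b) (v : ℕ) : v ∈ Hs V E (L 0) (stOf τ L b) ↔ ∃ i, i < b ∧ v = L i := by
  unfold Hs stOf
  rcases Nat.eq_zero_or_pos b with h0 | h0
  · subst h0; simp
  · rw [if_neg (by omega)]
    exact cl_mem h (by omega) v

/-- A column passes the test. -/
theorem colOK_comp {V : List ℕ} {E : List (ℕ × ℕ)} {n : ℕ} {τ L : ℕ → ℕ} (h : Lay V E n τ L)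
    {a b : ℕ} (ha : a = 0 ∨ 0 < τ a) (hab : a < b) (hbn : b ≤ n)
    (hb : b = n ∨ 0 < τ b) (hz : ∀ c, a < c → c < b → τ c = 0) {H : List ℕ}
    (hH : ∀ v, v ∈ H ↔ ∃ i, i < b ∧ v = L i) :
    colOK V E (Hs V E (L 0) (stOf τ L a)) (stOf τ L a) H (L a) = true ∧
      ∀ t, t < b - a → (go V E (H.filter (fun v => !decide (v ∈ Hs V E (L 0) (stOf τ L a)))) (L a))[t]?
        = some (L (b - 1 - t)) := by
  have hHs := Hs_mem h ha
  have hS : ∀ v, v ∈ H.filter (fun v => !decide (v ∈ Hs V E (L 0) (stOf τ L a))) ↔
      ∃ i, a ≤ i ∧ i < b ∧ v = L i := by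
    intro v
    rw [List.mem_filter, Bool.not_eq_true', decide_eq_false_iff_not, hH, hHs]
    constructor
    · rintro ⟨⟨i, hi, rfl⟩, h2⟩
      refine ⟨i, ?_, hi, rfl⟩
      by_contra hc
      exact h2 ⟨i, by omega, rfl⟩
    · rintro ⟨i, hi, hi', rfl⟩
      refine ⟨⟨i, hi', rfl⟩, ?_⟩
      rintro ⟨j, hj, he⟩
      have := h.inj _ _ (by omega) (by omega) he
      omega
  have hgo := go_col h hab hbn hz hS
  have hrev : ((List.range (b - a)).map (fun i => L (a + i))).reverse.reverse =
      (List.range (b - a)).map (fun i => L (a + i)) := List.reverse_reverse _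
  have hget : ∀ i, i < b - a → ((List.range (b - a)).map (fun i => L (a + i))).getD i 0 =
      L (a + i) := by
    intro i hi
    rw [List.getD_eq_getElem _ _ (by simpa using hi)]
    simp
  constructor
  · unfold colOK
    simp only [Bool.and_eq_true]
    rw [hgo, hrev]
    refine ⟨⟨⟨?_, ?_⟩, ?_⟩, ?_, ?_⟩
    · rw [decide_eq_true_eq, hS]
      exact ⟨a, le_rfl, hab, rfl⟩
    · rw [List.all_eq_true]
      intro v hv
      obtain ⟨i, hi, hi', rfl⟩ := (hS v).1 hv
      rw [decide_eq_true_eq, List.mem_reverse, List.mem_map]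
      exact ⟨i - a, List.mem_range.2 (by omega), by rw [show a + (i - a) = i by omega]⟩
    · rw [List.all_eq_true]
      intro v hv
      obtain ⟨i, hi, rfl⟩ := (hHs v).1 hv
      rw [decide_eq_true_eq, hH]
      exact ⟨i, by omega, rfl⟩
    · simp only [List.all_eq_true, List.mem_range, List.length_reverse, List.length_map,
        List.length_range, decide_eq_true_eq]
      intro i hi j hj
      rw [hget i hi, hget j hj]
      have h1 := h.adj (a + i) (a + j) (by omega) (by omega)
      rw [tA_col hbn hz (by omega) (by omega) (by omega) (by omega)] at h1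
      rw [Bool.eq_iff_iff, h1, Bool.or_eq_true, decide_eq_true_eq, decide_eq_true_eq]
      omega
    · unfold stOf
      rcases Nat.eq_zero_or_pos a with h0 | h0
      · rw [if_pos h0]; rfl
      · rw [if_neg (by omega)]
        have hpos : 0 < τ a := by omega
        obtain ⟨v1, v2, v3⟩ := h.val a hpos
        have hlt : a + τ a < b := by
          rcases hb with hb | hb
          · omega
          · have := v3 b (by omega) hb
            omega
        simp only [Option.elim, Bool.and_eq_true, decide_eq_true_eq]
        constructor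
        · rw [List.getElem?_map, List.getElem?_range (by omega)]
          rfl
        · rw [List.all_eq_true]
          intro u hu
          rw [show (some (L (a - 1 - τ a), L (a + τ a), τ a) : St) = stOf τ L a by
            unfold stOf; rw [if_neg (by omega)]] at hu
          obtain ⟨i, hi, rfl⟩ := (hHs u).1 hu
          rw [List.all_eq_true]
          intro v hv
          rw [List.mem_reverse, List.mem_map] at hv
          obtain ⟨j, hj, rfl⟩ := hv
          rw [List.mem_range] at hj
          rw [decide_eq_true_eq, Bool.eq_iff_iff, h.adj _ _ (by omega) (by omega),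
            Bool.and_eq_true, decide_eq_true_eq, decide_eq_true_eq]
          constructor
          · intro ht
            have := tA_cut h.val hpos ht hi (by omega)
            rw [this.1, this.2]
            exact ⟨rfl, rfl⟩
          · rintro ⟨e1, e2⟩
            have e1' := h.inj _ _ (by omega) (by omega) e1
            have e2' := h.inj _ _ (by omega) (by omega) e2
            exact ⟨a, h0, by omega, Or.inl ⟨by omega, by omega⟩⟩
  · intro t ht
    rw [hgo, List.getElem?_reverse (by simpa using ht), List.getElem?_map,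
      List.getElem?_range (by simp; omega)]
    simp only [List.length_map, List.length_range, Option.map_some]
    rw [show a + (b - a - 1 - t) = b - 1 - t by omega]

/-- The previous cut. -/
theorem exists_prev (τ : ℕ → ℕ) {b : ℕ} (hb : 0 < b) :
    ∃ a, a < b ∧ (a = 0 ∨ 0 < τ a) ∧ ∀ c, a < c → c < b → τ c = 0 := by
  induction b with
  | zero => omega
  | succ b ih =>
    rcases Nat.eq_zero_or_pos b with h0 | h0
    · subst h0
      exact ⟨0, by omega, Or.inl rfl, fun c h1 h2 => by omega⟩
    · by_cases h : 0 < τ b
      · exact ⟨b, by omega, Or.inr h, fun c h1 h2 => by omega⟩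
      · obtain ⟨a, h1, h2, h3⟩ := ih h0
        refine ⟨a, by omega, h2, fun c hc hc' => ?_⟩
        rcases Nat.lt_or_ge c b with h4 | h4
        · exact h3 c hc h4
        · have : c = b := by omega
          rw [this]; omega

theorem tb_comp {V : List ℕ} {E : List (ℕ × ℕ)} {n : ℕ} {τ L : ℕ → ℕ} (h : Lay V E n τ L) :
    ∀ b, b < n → (b = 0 ∨ 0 < τ b) → ∀ k, b ≤ k →
      stOf τ L b ∈ (tbStep V E (L 0))^[k] [none] := by
  intro b
  induction b using Nat.strong_induction_on with
  | _ b ih =>
    intro hbn hb k hk
    rcases Nat.eq_zero_or_pos b with h0 | h0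
    · subst h0
      have : stOf τ L 0 = none := if_pos rfl
      rw [this]
      rcases Nat.eq_zero_or_pos k with hk0 | hk0
      · subst hk0; simp
      · obtain ⟨k', rfl⟩ : ∃ k', k = k' + 1 := ⟨k - 1, by omega⟩
        rw [Function.iterate_succ_apply']
        exact List.mem_cons_self
    · obtain ⟨k', rfl⟩ : ∃ k', k = k' + 1 := ⟨k - 1, by omega⟩
      obtain ⟨a, ha1, ha2, ha3⟩ := exists_prev τ h0
      have hpos : 0 < τ b := by omega
      obtain ⟨v1, v2, v3⟩ := h.val b hpos
      have hIH := ih a ha1 (by omega) ha2 k' (by omega)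
      rw [Function.iterate_succ_apply']
      unfold tbStep
      refine List.mem_cons_of_mem _ (List.mem_filter.2 ⟨?_, ?_⟩)
      · unfold states stOf
        rw [if_neg (by omega), List.mem_flatMap]
        refine ⟨L (b - 1 - τ b), (h.mem _).2 ⟨_, by omega, rfl⟩, ?_⟩
        rw [List.mem_flatMap]
        refine ⟨L (b + τ b), (h.mem _).2 ⟨_, by omega, rfl⟩, ?_⟩
        rw [List.mem_map]
        exact ⟨τ b, List.mem_range.2 (by have := h.le_length; omega), rfl⟩
      · rw [List.any_eq_true]
        refine ⟨_, hIH, ?_⟩
        rw [List.any_eq_true]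
        refine ⟨L a, (h.mem _).2 ⟨a, by omega, rfl⟩, ?_⟩
        obtain ⟨h1, h2⟩ := colOK_comp h ha2 ha1 hbn.le (Or.inr hpos) ha3 (Hs_mem h hb)
        rw [Bool.and_eq_true]
        refine ⟨h1, ?_⟩
        unfold outOK
        rw [show stOf τ L b = some (L (b - 1 - τ b), L (b + τ b), τ b) from if_neg (by omega)]
        simp only [Option.elim, decide_eq_true_eq]
        have hlt : τ b < b - a := by
          rcases ha2 with ha2 | ha2
          · omega
          · have := v3 a (by omega) ha2
            omega
        have := h2 (τ b) hlt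
        rwa [show stOf τ L b = some (L (b - 1 - τ b), L (b + τ b), τ b) from if_neg (by omega)]
          at this

theorem test_comp {x : List ℕ × List (ℕ × ℕ)} {n : ℕ} {τ L : ℕ → ℕ} (h : Lay x.1 x.2 n τ L) :
    test x = true := by
  unfold test
  rw [List.any_eq_true]
  refine ⟨L 0, (h.mem _).2 ⟨0, h.pos, rfl⟩, ?_⟩
  obtain ⟨a, ha1, ha2, ha3⟩ := exists_prev τ (b := n) h.pos
  rw [List.any_eq_true]
  refine ⟨stOf τ L a, ?_, ?_⟩
  · unfold tb
    rw [foldl_iter]
    exact tb_comp h a ha1 ha2 _ (by have := h.le_length; omega)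
  · rw [List.any_eq_true]
    refine ⟨L a, (h.mem _).2 ⟨a, ha1, rfl⟩, ?_⟩
    exact (colOK_comp h ha2 ha1 le_rfl (Or.inl rfl) ha3 h.mem).1

theorem lay_of_iso {x : List ℕ × List (ℕ × ℕ)} {n : ℕ} {τ : ℕ → ℕ} (hn : 1 ≤ n) (hv : Val n τ)
    (e : cG x ≃g tG n τ) :
    Lay x.1 x.2 n τ (fun i => if h : i < n then (e.symm ⟨i, h⟩).1 else 0) := by
  refine ⟨hn, hv, ?_, ?_, ?_⟩
  · intro v
    constructor
    · intro hv
      refine ⟨(e ⟨v, hv⟩).1, (e ⟨v, hv⟩).2, ?_⟩
      rw [dif_pos (e ⟨v, hv⟩).2]
      simp
    · rintro ⟨i, hi, rfl⟩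
      rw [dif_pos hi]
      exact (e.symm ⟨i, hi⟩).2
  · intro i j hi hj he
    simp only [dif_pos hi, dif_pos hj] at he
    have := e.symm.injective (Subtype.ext he)
    simpa using this
  · intro i j hi hj
    simp only [dif_pos hi, dif_pos hj]
    rw [← cG_adj, e.symm.map_adj_iff]
    rfl

/-- **The test decides path-like trees.** -/
theorem test_iff (x : List ℕ × List (ℕ × ℕ)) : test x = true ↔ PathLike (cG x) := by
  rw [pathLike_iff]
  constructor
  · exact test_sound
  · rintro ⟨n, τ, hn, hv, ⟨e⟩⟩
    exact test_comp (lay_of_iso hn hv e)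

end Q224.PL
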