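import Pool.Agent.Q234.PL.Stm

/-!
# Project PL: distance of a vector with a kernel from the ground state (job PL-DI)
-/

set_option autoImplicit false

open scoped BigOperators Matrix
open Finset Pool.Agent.TH235.PP Pool.Agent.Q234.PL

namespace Pool.Agent.Q224.PL.DI

theorem sum_paste {P C : Type} [Fintype P] [Fintype C] (R : C → P) (pa : P → C → C)
    (h1 : ∀ p t, R (pa p t) = p) (h2 : ∀ p t, pa (R t) (pa p t) = t) (F : C → ℝ) :
    ∑ t, ∑ p, F (pa p t) = Fintype.card P * ∑ s, F s := by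
  have h3 : ∑ x : P × C, F (pa x.1 x.2) = ∑ y : P × C, F y.2 := by
    refine Finset.sum_bij' (fun x _ => (R x.2, pa x.1 x.2)) (fun x _ => (R x.2, pa x.1 x.2))
      ?_ ?_ ?_ ?_ ?_
    · intros; exact mem_univ _
    · intros; exact mem_univ _
    · rintro ⟨p, t⟩ _
      simp only [h1, h2]
    · rintro ⟨p, t⟩ _
      simp only [h1, h2]
    · intros; rfl
  rw [Fintype.sum_prod_type, Fintype.sum_prod_type] at h3
  rw [Finset.sum_comm, h3]
  simp

theorem dist_core {P C : Type} [Fintype P] [Fintype C] (R : C → P) (pa : P → C → C)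
    (h1 : ∀ p t, R (pa p t) = p) (h2 : ∀ p t, pa (R t) (pa p t) = t)
    (φ Ψ : C → ℂ) (g : ℝ) (v : P → ℂ) (hv : v ≠ 0)
    (hk : ∀ t, ∑ p, v p * φ (pa p t) = 0)
    (hg : g * ∑ p, ‖v p‖ ^ 2 ≤ ∑ t, ‖∑ p, v p * Ψ (pa p t)‖ ^ 2) :
    g ≤ Fintype.card P * normSq (φ - Ψ) := by
  have hpos : 0 < ∑ p, ‖v p‖ ^ 2 := by
    obtain ⟨p, hp⟩ := Function.ne_iff.1 hv
    refine Finset.sum_pos' (fun _ _ => by positivity) ⟨p, mem_univ _, ?_⟩
    have : 0 < ‖v p‖ := norm_pos_iff.2 hp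
    positivity
  have h3 : ∀ t, ‖∑ p, v p * Ψ (pa p t)‖ ^ 2 ≤
      (∑ p, ‖v p‖ ^ 2) * ∑ p, ‖(φ - Ψ) (pa p t)‖ ^ 2 := by
    intro t
    have h4 : ∑ p, v p * Ψ (pa p t) = -∑ p, v p * (φ - Ψ) (pa p t) := by
      have : ∑ p, v p * (φ - Ψ) (pa p t) =
          ∑ p, v p * φ (pa p t) - ∑ p, v p * Ψ (pa p t) := by
        rw [← Finset.sum_sub_distrib]
        refine Finset.sum_congr rfl fun p _ => ?_
        rw [Pi.sub_apply, mul_sub]
      rw [this, hk t, zero_sub, neg_neg]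
    rw [h4, norm_neg]
    have h5 : ‖∑ p, v p * (φ - Ψ) (pa p t)‖ ≤ ∑ p, ‖v p‖ * ‖(φ - Ψ) (pa p t)‖ := by
      refine le_trans (norm_sum_le _ _) (le_of_eq ?_)
      exact Finset.sum_congr rfl fun p _ => norm_mul _ _
    refine le_trans (pow_le_pow_left₀ (norm_nonneg _) h5 2) ?_
    exact Finset.sum_mul_sq_le_sq_mul_sq _ _ _
  have h6 : g * ∑ p, ‖v p‖ ^ 2 ≤ (Fintype.card P * normSq (φ - Ψ)) * ∑ p, ‖v p‖ ^ 2 := by
    refine le_trans hg (le_trans (Finset.sum_le_sum fun t _ => h3 t) (le_of_eq ?_))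
    rw [← Finset.mul_sum, sum_paste R pa h1 h2 (fun s => ‖(φ - Ψ) s‖ ^ 2), normSq]
    ring
  exact le_of_mul_le_mul_right h6 hpos

theorem main : Dist := by
  constructor
  · intro N m φ Ψ g v hm hv hk hg
    have h := dist_core (P := Fin m → Fin 2) (C := Cf N)
      (fun t i => t ⟨i, by omega⟩) paste ?_ ?_ φ Ψ g v hv hk hg
    · simpa using h
    · intro p t
      funext i
      simp only [paste]
      rw [dif_pos i.2]
    · intro p t
      funext i
      simp only [paste]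
      by_cases hi : (i : ℕ) < m
      · rw [dif_pos hi]
      · rw [dif_neg hi, dif_neg hi]
  · intro L m _ φ Ψ g v hm hv hk hg
    have hcast : ∀ i : Fin m, ((i : ℕ) : ZMod L).val = i := fun i =>
      ZMod.val_natCast_of_lt (lt_of_lt_of_le i.2 hm)
    have h := dist_core (P := Fin m × Fin m → Fin 2) (C := Site L → Fin 2)
      (fun t i => t (((i.1 : ℕ) : ZMod L), ((i.2 : ℕ) : ZMod L))) tpaste ?_ ?_ φ Ψ g v hv hk hg
    · simpa using h
    · intro p t
      funext i
      simp only [tpaste]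
      rw [dif_pos ⟨by rw [hcast]; exact i.1.2, by rw [hcast]; exact i.2.2⟩]
      congr 1
      refine Prod.ext (Fin.ext ?_) (Fin.ext ?_)
      · exact hcast _
      · exact hcast _
    · intro p t
      funext i
      simp only [tpaste]
      by_cases hi : i.1.val < m ∧ i.2.val < m
      · rw [dif_pos hi]
        congr 1
        refine Prod.ext ?_ ?_
        · simp only [ZMod.natCast_val, ZMod.cast_id', id_eq]
        · simp only [ZMod.natCast_val, ZMod.cast_id', id_eq]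
      · rw [dif_neg hi, dif_neg hi]

end Pool.Agent.Q224.PL.DI
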