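import Mathlib

/-!
# Path-like trees: definitions
-/

set_option autoImplicit false

namespace Q224.PL

/-- Two points of the grid are adjacent: they are at Euclidean distance `1`. -/
def GAdj (a b : ℤ × ℤ) : Prop := (a.1 - b.1) ^ 2 + (a.2 - b.2) ^ 2 = 1

/-- `f 0, …, f (n - 1)` is an embedding of the path `P_n` in the grid without crossings. -/
structure Emb (n : ℕ) (f : ℕ → ℤ × ℤ) : Prop where
  inj : ∀ i < n, ∀ j < n, f i = f j → i = j
  adj : ∀ i, i + 1 < n → GAdj (f i) (f (i + 1))

/-- The part of the embedded path between its vertices number `p` and `q` is straight. -/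
def Straight (f : ℕ → ℤ × ℤ) (p q : ℕ) : Prop :=
  ∀ i, p ≤ i → i < q → f (i + 1) - f i = f (p + 1) - f p

/-- The part of the embedded path between its vertices number `p` and `q` is one of the maximal
straight segments. -/
def MaxSeg (n : ℕ) (f : ℕ → ℤ × ℤ) (p q : ℕ) : Prop :=
  p < q ∧ q < n ∧ Straight f p q ∧
    ∀ p' q', p' ≤ p → q ≤ q' → q' < n → Straight f p' q' → p' = p ∧ q' = q

/-- There are three consecutive maximal straight segments, from `p` to `b - 1`, from `b - 1` to `b`
(a single edge) and from `b` to `q`, and the vertices at distance `t` from this single edge on the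
first and on the third of them are adjacent in the grid: the elementary transformation which deletes
the edge between the vertices number `b - 1` and `b` and adds the edge between the vertices number
`b - 1 - t` and `b + t`. -/
def Elem (n : ℕ) (f : ℕ → ℤ × ℤ) (b t : ℕ) : Prop :=
  ∃ p q, MaxSeg n f p (b - 1) ∧ MaxSeg n f (b - 1) b ∧ MaxSeg n f b q ∧ p + t ≤ b - 1 ∧
    b + t ≤ q ∧ GAdj (f (b - 1 - t)) (f (b + t))

/-- The graph with vertices `0, …, n - 1` which is obtained from the path by the transformations in
the set `S`: for `(b, t) ∈ S` the edge between `b - 1` and `b` is deleted, and the edge between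
`b - 1 - t` and `b + t` is added. -/
def resG (n : ℕ) (S : Set (ℕ × ℕ)) : SimpleGraph (Fin n) :=
  SimpleGraph.fromRel (fun i j =>
    ((j : ℕ) = i + 1 ∧ ∀ t, ((i : ℕ) + 1, t) ∉ S) ∨
      ∃ b t, (b, t) ∈ S ∧ (i : ℕ) = b - 1 - t ∧ (j : ℕ) = b + t)

/-- **Path-like trees** (up to isomorphism): the graph is isomorphic to a tree which is obtained
from a crossing-free embedding of a path `P_n` in the grid by performing a set `S` of elementary
transformations (each edge being deleted at most once). -/
def PathLike {V : Type} (G : SimpleGraph V) : Prop :=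
  ∃ (n : ℕ) (f : ℕ → ℤ × ℤ) (S : Set (ℕ × ℕ)), 1 ≤ n ∧ Emb n f ∧
    (∀ b t, (b, t) ∈ S → Elem n f b t) ∧ (∀ b t t', (b, t) ∈ S → (b, t') ∈ S → t = t') ∧
    (resG n S).IsTree ∧ Nonempty (G ≃g resG n S)

end Q224.PL
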