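import Pool.Agent.Q224.PL.Defs

/-!
# Path-like trees: the combinatorial description
-/

set_option autoImplicit false

namespace Q224.PL

/-- The parameters of a combinatorial path-like tree: `τ b` for the edge between `b - 1` and `b`,
`0` if it is not changed. -/
def Val (n : ℕ) (τ : ℕ → ℕ) : Prop :=
  ∀ b, 0 < τ b → τ b < b ∧ b + τ b < n ∧
    ∀ b', b' ≠ b → 0 < τ b' → τ b < (b' - b) + (b - b')

/-- The edges of the combinatorial path-like tree. -/
def tA (n : ℕ) (τ : ℕ → ℕ) (i j : ℕ) : Prop :=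
  ∃ b, 1 ≤ b ∧ b < n ∧ ((i + τ b + 1 = b ∧ j = b + τ b) ∨ (j + τ b + 1 = b ∧ i = b + τ b))

theorem tA.symm {n : ℕ} {τ : ℕ → ℕ} {i j : ℕ} (h : tA n τ i j) : tA n τ j i := by
  obtain ⟨b, h1, h2, h3⟩ := h
  exact ⟨b, h1, h2, h3.symm⟩

theorem tA.ne {n : ℕ} {τ : ℕ → ℕ} {i j : ℕ} (h : tA n τ i j) : i ≠ j := by
  obtain ⟨b, h1, h2, h3⟩ := h
  omega

/-- The combinatorial path-like tree. -/
def tG (n : ℕ) (τ : ℕ → ℕ) : SimpleGraph (Fin n) where
  Adj i j := tA n τ i j
  symm := ⟨fun _ _ h => h.symm⟩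
  loopless := ⟨fun _ h => h.ne rfl⟩

/-! ### from an embedding to the parameters -/

theorem gadj_cases {a b : ℤ × ℤ} (h : GAdj a b) : b - a = (1, 0) ∨ b - a = (-1, 0) ∨
    b - a = (0, 1) ∨ b - a = (0, -1) := by
  unfold GAdj at h
  have h1 : a.1 - b.1 ≤ 1 := by nlinarith [sq_nonneg (a.2 - b.2)]
  have h2 : -1 ≤ a.1 - b.1 := by nlinarith [sq_nonneg (a.2 - b.2)]
  have h3 : a.2 - b.2 ≤ 1 := by nlinarith [sq_nonneg (a.1 - b.1)]
  have h4 : -1 ≤ a.2 - b.2 := by nlinarith [sq_nonneg (a.1 - b.1)]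
  simp only [Prod.ext_iff, Prod.fst_sub, Prod.snd_sub]
  have e1 : a.1 - b.1 = -1 ∨ a.1 - b.1 = 0 ∨ a.1 - b.1 = 1 := by omega
  have e2 : a.2 - b.2 = -1 ∨ a.2 - b.2 = 0 ∨ a.2 - b.2 = 1 := by omega
  rcases e1 with e1 | e1 | e1 <;> rcases e2 with e2 | e2 | e2 <;> rw [e1, e2] at h <;>
    norm_num at h <;> omega

/-- Being one of the four unit vectors. -/
def Dir (u : ℤ × ℤ) : Prop := u = (1, 0) ∨ u = (-1, 0) ∨ u = (0, 1) ∨ u = (0, -1)

theorem turn {u v w : ℤ × ℤ} (hu : Dir u) (hv : Dir v) (hw : Dir w) (h1 : v ≠ u)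
    (h2 : v + u ≠ 0) (h3 : w ≠ v) (h4 : w + v ≠ 0) (h5 : Dir (w + v + u)) : w = -u := by
  unfold Dir at h5
  rcases hu with rfl | rfl | rfl | rfl <;> rcases hv with rfl | rfl | rfl | rfl <;>
    rcases hw with rfl | rfl | rfl | rfl <;> revert h1 h2 h3 h4 h5 <;> decide

theorem step_cases {n : ℕ} {f : ℕ → ℤ × ℤ} (hf : Emb n f) {i : ℕ} (hi : i + 1 < n) :
    f (i + 1) - f i = (1, 0) ∨ f (i + 1) - f i = (-1, 0) ∨ f (i + 1) - f i = (0, 1) ∨
      f (i + 1) - f i = (0, -1) := by
  exact gadj_cases (hf.adj i hi)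

/-- The step after a maximal segment has another direction. -/
theorem MaxSeg.right {n : ℕ} {f : ℕ → ℤ × ℤ} {p q : ℕ} (h : MaxSeg n f p q) (hq : q + 1 < n) :
    f (q + 1) - f q ≠ f (p + 1) - f p := by
  intro he
  have := (h.2.2.2 p (q + 1) le_rfl (Nat.le_succ q) hq (by
    intro i hi hi'
    rcases Nat.lt_or_ge i q with h' | h'
    · exact h.2.2.1 i hi h'
    · have : i = q := by omega
      rw [this]; exact he)).2
  omega

theorem MaxSeg.left {n : ℕ} {f : ℕ → ℤ × ℤ} {p q : ℕ} (h : MaxSeg n f p q) (hp : 1 ≤ p) :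
    f p - f (p - 1) ≠ f (p + 1) - f p := by
  intro he
  have e : p - 1 + 1 = p := by omega
  have := (h.2.2.2 (p - 1) q (Nat.sub_le _ _) le_rfl h.2.1 (by
    intro i hi hi'
    rw [e]
    rcases Nat.lt_or_ge i p with h' | h'
    · have : i = p - 1 := by omega
      rw [this, e]
    · rw [he]; exact h.2.2.1 i h' hi')).1
  omega

/-- A step in the direction of the `i`-th step. -/
theorem Straight.eq {f : ℕ → ℤ × ℤ} {p q : ℕ} (h : Straight f p q) {i j : ℕ} (hi : p ≤ i)
    (hi' : i < q) (hj : p ≤ j) (hj' : j < q) : f (i + 1) - f i = f (j + 1) - f j := by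
  rw [h i hi hi', h j hj hj']

theorem Elem.lt {n : ℕ} {f : ℕ → ℤ × ℤ} {b t : ℕ} (h : Elem n f b t) : t + 1 ≤ b ∧ b + t < n := by
  obtain ⟨p, q, h1, h2, h3, h4, h5, h6⟩ := h
  have := h1.1
  have := h3.2.1
  omega

/-- Two transformations at different places. -/
theorem elem_far {n : ℕ} {f : ℕ → ℤ × ℤ} (hf : Emb n f) {b t b' t' : ℕ} (h : Elem n f b t)
    (h' : Elem n f b' t') (ht : 0 < t) (ht' : 0 < t') (hb : b < b') :
    t < b' - b ∧ t' < b' - b := by
  obtain ⟨p, q, h1, h2, h3, h4, h5, h6⟩ := h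
  obtain ⟨p', q', h1', h2', h3', h4', h5', h6'⟩ := h'
  have l1 := h1.1
  have l2 := h3.1
  have l3 := h3.2.1
  have l1' := h1'.1
  have l2' := h3'.1
  have l3' := h3'.2.1
  -- the single edge of `b'` is not inside the segment after `b`
  have ne1 : ∀ c, 2 ≤ c → c < n → ∀ u v, MaxSeg n f (c - 1) c → Straight f u v → u ≤ c - 2 → c ≤ v →
      False := by
    intro c hc hc' u v hm hs hu hv
    refine hm.left (by omega) ?_
    have := hs.eq (i := c - 2) (j := c - 1) (by omega) (by omega) (by omega) (by omega)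
    rwa [show c - 2 + 1 = c - 1 by omega, show c - 2 = c - 1 - 1 by omega] at this
  have ne2 : ∀ c, 1 ≤ c → c + 1 < n → ∀ u v, MaxSeg n f (c - 1) c → Straight f u v → u ≤ c - 1 →
      c + 1 ≤ v → False := by
    intro c hc hc' u v hm hs hu hv
    refine hm.right (by omega) ?_
    exact hs.eq (i := c) (j := c - 1) (by omega) (by omega) (by omega) (by omega)
  rcases Nat.lt_or_ge (b + 1) b' with hlt | hge
  · constructor
    · by_contra hc
      exact ne1 b' (by omega) (by omega) b q h2' h3.2.2.1 (by omega) (by omega)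
    · by_contra hc
      exact ne2 b (by omega) (by omega) p' (b' - 1) h2 h1'.2.2.1 (by omega) (by omega)
  · -- `b' = b + 1`: both distances are one and the path would close up
    exfalso
    have hb' : b' = b + 1 := by omega
    subst hb'
    have ht1 : t = 1 := by
      by_contra hc
      exact ne2 (b + 1) (by omega) (by omega) b q h2' h3.2.2.1 (by omega) (by omega)
    have ht2 : t' = 1 := by
      by_contra hc
      exact ne1 b (by omega) (by omega) p' b h2 (by simpa using h1'.2.2.1) (by omega)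
        (by omega)
    subst ht1 ht2
    obtain ⟨a, rfl⟩ : ∃ a, b = a + 2 := ⟨b - 2, by omega⟩
    have s1 := step_cases hf (i := a) (by omega)
    have s2 := step_cases hf (i := a + 1) (by omega)
    have s3 := step_cases hf (i := a + 2) (by omega)
    have s4 := step_cases hf (i := a + 3) (by omega)
    have d1 : f (a + 2) - f (a + 1) ≠ f (a + 1) - f a := by
      have := h2.left (by omega)
      simp only [show a + 2 - 1 = a + 1 by omega] at this
      exact fun e => this e.symm
    have d2 : f (a + 3) - f (a + 2) ≠ f (a + 2) - f (a + 1) := by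
      have := h2.right (by omega)
      simpa only [show a + 2 - 1 = a + 1 by omega, show a + 2 - 1 - 1 = a by omega] using this
    have d3 : f (a + 4) - f (a + 3) ≠ f (a + 3) - f (a + 2) := by
      have := h2'.right (by omega)
      simpa only [show a + 2 + 1 - 1 = a + 2 by omega] using this
    have g1 : GAdj (f a) (f (a + 3)) := by
      simpa only [show a + 2 - 1 - 1 = a by omega] using h6
    have g2 : GAdj (f (a + 1)) (f (a + 4)) := by
      simpa only [show a + 2 + 1 - 1 - 1 = a + 1 by omega] using h6'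
    have i1 : f a ≠ f (a + 4) := fun e => by
      have := hf.inj a (by omega) (a + 4) (by omega) e
      omega
    have i2 : f a ≠ f (a + 2) := fun e => by
      have := hf.inj a (by omega) (a + 2) (by omega) e
      omega
    have i3 : f (a + 1) ≠ f (a + 3) := fun e => by
      have := hf.inj (a + 1) (by omega) (a + 3) (by omega) e
      omega
    have i4 : f (a + 2) ≠ f (a + 4) := fun e => by
      have := hf.inj (a + 2) (by omega) (a + 4) (by omega) e
      omega
    have g1' := gadj_cases g1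
    have g2' := gadj_cases g2
    rw [show a + 2 + 1 = a + 3 from rfl] at s3
    rw [show a + 3 + 1 = a + 4 from rfl] at s4
    rw [show a + 1 + 1 = a + 2 from rfl] at s2
    have k1 := turn (u := f (a + 1) - f a) (v := f (a + 2) - f (a + 1))
      (w := f (a + 3) - f (a + 2)) s1 s2 s3
      d1 (by simpa [sub_eq_zero] using fun e => i2 e.symm)
      d2 (by simpa [sub_eq_zero] using fun e => i3 e.symm) (by simpa [Dir] using g1')
    have k2 := turn (u := f (a + 2) - f (a + 1)) (v := f (a + 3) - f (a + 2))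
      (w := f (a + 4) - f (a + 3)) s2 s3 s4
      d2 (by simpa [sub_eq_zero] using fun e => i3 e.symm)
      d3 (by simpa [sub_eq_zero] using fun e => i4 e.symm) (by simpa [Dir] using g2')
    apply i1
    have : f (a + 4) - f a = (f (a + 4) - f (a + 3)) + (f (a + 3) - f (a + 2)) +
      (f (a + 2) - f (a + 1)) + (f (a + 1) - f a) := by abel
    rw [k1, k2] at this
    have h0 : f (a + 4) - f a = 0 := by rw [this]; abel
    exact (sub_eq_zero.1 h0).symm

/-- The embedded structure gives parameters. -/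
theorem exists_val {n : ℕ} {f : ℕ → ℤ × ℤ} {S : Set (ℕ × ℕ)} (hf : Emb n f)
    (hS : ∀ b t, (b, t) ∈ S → Elem n f b t) (hu : ∀ b t t', (b, t) ∈ S → (b, t') ∈ S → t = t') :
    ∃ τ, Val n τ ∧ resG n S = tG n τ := by
  classical
  let τ : ℕ → ℕ := fun b => if h : ∃ t, (b, t) ∈ S then h.choose else 0
  have h1 : ∀ b t, (b, t) ∈ S → τ b = t := by
    intro b t h
    have hh : ∃ t, (b, t) ∈ S := ⟨t, h⟩
    simp only [τ, dif_pos hh]
    exact hu b _ _ hh.choose_spec h
  have h2 : ∀ b, (∀ t, (b, t) ∉ S) → τ b = 0 := by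
    intro b h
    have hh : ¬ ∃ t, (b, t) ∈ S := fun ⟨t, ht⟩ => h t ht
    simp only [τ, dif_neg hh]
  have h3 : ∀ b, 0 < τ b → (b, τ b) ∈ S := by
    intro b h
    by_cases hh : ∃ t, (b, t) ∈ S
    · simp only [τ, dif_pos hh]
      exact hh.choose_spec
    · simp only [τ, dif_neg hh] at h
      omega
  refine ⟨τ, ?_, ?_⟩
  · intro b hb
    have e := hS b _ (h3 b hb)
    have := e.lt
    refine ⟨by omega, by omega, fun b' hne hb' => ?_⟩
    have e' := hS b' _ (h3 b' hb')
    rcases lt_or_gt_of_ne hne with h | h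
    · have := (elem_far hf e' e hb' hb h).2
      omega
    · have := (elem_far hf e e' hb hb' h).1
      omega
  · have key : ∀ i j : Fin n, (((j : ℕ) = i + 1 ∧ ∀ t, ((i : ℕ) + 1, t) ∉ S) ∨
        ∃ b t, (b, t) ∈ S ∧ (i : ℕ) = b - 1 - t ∧ (j : ℕ) = b + t) ↔
        ∃ b, 1 ≤ b ∧ b < n ∧ (i : ℕ) + τ b + 1 = b ∧ (j : ℕ) = b + τ b := by
      intro i j
      constructor
      · rintro (⟨h, h'⟩ | ⟨b, t, hbt, hi, hj⟩)
        · have := h2 _ h'
          exact ⟨i + 1, by omega, by have := j.2; omega, by omega, by omega⟩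
        · have := h1 _ _ hbt
          have := (hS _ _ hbt).lt
          exact ⟨b, by omega, by omega, by omega, by omega⟩
      · rintro ⟨b, hb1, hb2, hi, hj⟩
        by_cases hh : ∃ t, (b, t) ∈ S
        · obtain ⟨t, ht⟩ := hh
          have := h1 _ _ ht
          have := (hS _ _ ht).lt
          exact Or.inr ⟨b, t, ht, by omega, by omega⟩
        · push Not at hh
          have := h2 _ hh
          refine Or.inl ⟨by omega, ?_⟩
          have : (i : ℕ) + 1 = b := by omega
          rw [this]; exact hh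
    ext i j
    simp only [resG, SimpleGraph.fromRel_adj, tG, key, tA]
    constructor
    · rintro ⟨_, ⟨b, h, h', h''⟩ | ⟨b, h, h', h''⟩⟩
      · exact ⟨b, h, h', Or.inl h''⟩
      · exact ⟨b, h, h', Or.inr h''⟩
    · rintro ⟨b, h, h', h'' | h''⟩
      · exact ⟨fun e => by have := congrArg Fin.val e; omega, Or.inl ⟨b, h, h', h''⟩⟩
      · exact ⟨fun e => by have := congrArg Fin.val e; omega, Or.inr ⟨b, h, h', h''⟩⟩

/-! ### from the parameters to an embedding -/

/-- The zigzag embedding: horizontal and vertical position, and the current vertical direction. -/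
def zz (τ : ℕ → ℕ) : ℕ → ℤ × ℤ × ℤ
  | 0 => (0, 0, 1)
  | k + 1 => if 0 < τ (k + 1) then ((zz τ k).1 + 1, (zz τ k).2.1, -(zz τ k).2.2)
      else ((zz τ k).1, (zz τ k).2.1 + (zz τ k).2.2, (zz τ k).2.2)

/-- The positions of the zigzag embedding. -/
def zf (τ : ℕ → ℕ) (k : ℕ) : ℤ × ℤ := ((zz τ k).1, (zz τ k).2.1)

theorem zz_dir (τ : ℕ → ℕ) (k : ℕ) : (zz τ k).2.2 = 1 ∨ (zz τ k).2.2 = -1 := by
  induction k with
  | zero => left; rfl
  | succ k ih =>
    unfold zz
    split_ifs
    · rcases ih with h | h <;> simp [h]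
    · exact ih

/-- Without a transformation the zigzag moves vertically. -/
theorem zz_vert {τ : ℕ → ℕ} {i j : ℕ} (hij : i ≤ j) (h : ∀ b, i < b → b ≤ j → τ b = 0) :
    zz τ j = ((zz τ i).1, (zz τ i).2.1 + (j - i : ℕ) * (zz τ i).2.2, (zz τ i).2.2) := by
  induction j, hij using Nat.le_induction with
  | base => simp
  | succ j hj ih =>
    have hz : τ (j + 1) = 0 := h _ (by omega) le_rfl
    rw [zz, if_neg (by omega), ih (fun b h1 h2 => h b h1 (by omega))]
    have : j + 1 - i = (j - i) + 1 := by omega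
    rw [this]
    push_cast
    ext <;> simp
    ring

theorem zz_mono (τ : ℕ → ℕ) {i j : ℕ} (hij : i ≤ j) : (zz τ i).1 ≤ (zz τ j).1 := by
  induction j, hij using Nat.le_induction with
  | base => exact le_rfl
  | succ j hj ih =>
    rw [zz]
    split_ifs
    · simp only; omega
    · exact ih

theorem zz_lt {τ : ℕ → ℕ} {i j b : ℕ} (hib : i < b) (hbj : b ≤ j) (h : 0 < τ b) :
    (zz τ i).1 < (zz τ j).1 := by
  have h1 := zz_mono τ hbj
  obtain ⟨c, rfl⟩ : ∃ c, b = c + 1 := ⟨b - 1, by omega⟩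
  have h2 := zz_mono τ (i := i) (j := c) (by omega)
  rw [show (zz τ (c + 1)).1 = (zz τ c).1 + 1 by rw [zz, if_pos h]] at h1
  omega

theorem zf_emb (τ : ℕ → ℕ) (n : ℕ) : Emb n (zf τ) := by
  have key : ∀ i j, i < j → zf τ i ≠ zf τ j := by
    intro i j hij he
    simp only [zf, Prod.mk.injEq] at he
    by_cases hh : ∃ b, i < b ∧ b ≤ j ∧ 0 < τ b
    · obtain ⟨b, h1, h2, h3⟩ := hh
      have := zz_lt h1 h2 h3
      omega
    · push Not at hh
      have := zz_vert hij.le (fun b h1 h2 => Nat.le_zero.1 (hh b h1 h2))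
      rw [this] at he
      have h2 := he.2
      simp only at h2
      have h3 : ((j - i : ℕ) : ℤ) * (zz τ i).2.2 = 0 := by linarith
      rcases mul_eq_zero.1 h3 with h | h
      · omega
      · rcases zz_dir τ i with h' | h' <;> omega
  refine ⟨fun i _ j _ he => ?_, fun i _ => ?_⟩
  · by_contra hne
    rcases lt_or_gt_of_ne hne with h | h
    · exact key i j h he
    · exact key j i h he.symm
  · unfold GAdj zf
    rw [zz]
    split_ifs
    · simp
    · rcases zz_dir τ i with h' | h' <;> simp [h']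

theorem zf_vstep {τ : ℕ → ℕ} {i : ℕ} (h : τ (i + 1) = 0) :
    zf τ (i + 1) - zf τ i = (0, (zz τ i).2.2) := by
  unfold zf
  rw [zz, if_neg (by omega)]
  ext <;> simp

theorem zf_hstep {τ : ℕ → ℕ} {i : ℕ} (h : 0 < τ (i + 1)) :
    zf τ (i + 1) - zf τ i = (1, 0) := by
  unfold zf
  rw [zz, if_pos h]
  ext <;> simp

theorem zf_straight {τ : ℕ → ℕ} {p q : ℕ} (h : ∀ b, p < b → b ≤ q → τ b = 0) :
    Straight (zf τ) p q := by
  intro i hi hi'
  rw [zf_vstep (h (i + 1) (by omega) (by omega)), zf_vstep (h (p + 1) (by omega) (by omega)),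
    zz_vert hi (fun b h1 h2 => h b h1 (by omega))]

/-- A straight piece followed by a turn extends to a maximal segment on the left. -/
theorem exists_left {n : ℕ} {f : ℕ → ℤ × ℤ} {p q : ℕ} (hpq : p < q) (hq : q + 1 < n)
    (h : Straight f p q) (ht : f (q + 1) - f q ≠ f q - f (q - 1)) :
    ∃ p' ≤ p, MaxSeg n f p' q := by
  classical
  have hex : ∃ p', Straight f p' q := ⟨p, h⟩
  refine ⟨Nat.find hex, Nat.find_min' hex h, ?_, by omega, Nat.find_spec hex, ?_⟩
  · exact lt_of_le_of_lt (Nat.find_min' hex h) hpq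
  · intro p' q' hp' hq' hn hs
    have hle : p' ≤ p := hp'.trans (Nat.find_min' hex h)
    have hq'' : q' = q := by
      by_contra hne
      apply ht
      have := hs.eq (i := q) (j := q - 1) (by omega) (by omega) (by omega) (by omega)
      rwa [show q - 1 + 1 = q by omega] at this
    subst hq''
    exact ⟨le_antisymm hp' (Nat.find_min' hex hs), rfl⟩

theorem exists_right {n : ℕ} {f : ℕ → ℤ × ℤ} {p q : ℕ} (hp : 1 ≤ p) (hpq : p < q) (hq : q < n)
    (h : Straight f p q) (ht : f (p + 1) - f p ≠ f p - f (p - 1)) :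
    ∃ q', q ≤ q' ∧ MaxSeg n f p q' := by
  classical
  have hex : ∃ q', q ≤ q' ∧ ¬ (Straight f p (q' + 1) ∧ q' + 1 < n) := ⟨n, hq.le, by omega⟩
  have hs := Nat.find_spec hex
  have hm : ∀ m, m < Nat.find hex → ¬ (q ≤ m ∧ ¬ (Straight f p (m + 1) ∧ m + 1 < n)) :=
    fun m h => Nat.find_min hex h
  generalize Nat.find hex = q' at hs hm
  have hst : Straight f p q' ∧ q' < n := by
    rcases Nat.eq_or_lt_of_le hs.1 with h1 | h1
    · rw [← h1]; exact ⟨h, hq⟩
    · have := hm (q' - 1) (by omega)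
      rw [show q' - 1 + 1 = q' by omega] at this
      by_contra hc
      exact this ⟨by omega, hc⟩
  refine ⟨q', hs.1, by omega, hst.2, hst.1, ?_⟩
  intro p' q'' hp' hq' hn hst'
  have hpp : p' = p := by
    by_contra hne
    apply ht
    have := hst'.eq (i := p) (j := p - 1) (by omega) (by omega) (by omega) (by omega)
    rwa [show p - 1 + 1 = p by omega] at this
  subst hpp
  refine ⟨rfl, ?_⟩
  by_contra hne
  exact hs.2 ⟨fun i hi hi' => hst' i hi (by omega), by omega⟩

/-- The transformations of the zigzag. -/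
theorem zf_elem {n : ℕ} {τ : ℕ → ℕ} (hv : Val n τ) {b : ℕ} (hb : 0 < τ b) :
    Elem n (zf τ) b (τ b) := by
  obtain ⟨h1, h2, h3⟩ := hv b hb
  have z1 : ∀ c, b - 1 - τ b < c → c ≤ b - 1 → τ c = 0 := by
    intro c hc hc'
    by_contra hne
    have := h3 c (by omega) (by omega)
    omega
  have z2 : ∀ c, b < c → c ≤ b + τ b → τ c = 0 := by
    intro c hc hc'
    by_contra hne
    have := h3 c (by omega) (by omega)
    omega
  obtain ⟨a, rfl⟩ : ∃ a, b = a + 1 := ⟨b - 1, by omega⟩
  simp only [Nat.add_sub_cancel] at z1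
  have sa : zf τ (a + 1) - zf τ a = (1, 0) := zf_hstep hb
  have sp : zf τ a - zf τ (a - 1) = (0, (zz τ (a - 1)).2.2) := by
    have := zf_vstep (τ := τ) (i := a - 1) (by
      rw [show a - 1 + 1 = a by omega]; exact z1 a (by omega) le_rfl)
    rwa [show a - 1 + 1 = a by omega] at this
  have sn : zf τ (a + 2) - zf τ (a + 1) = (0, (zz τ (a + 1)).2.2) :=
    zf_vstep (τ := τ) (i := a + 1) (z2 (a + 1 + 1) (by omega) (by omega))
  have ne1 : zf τ (a + 1) - zf τ a ≠ zf τ a - zf τ (a - 1) := by rw [sa, sp]; simp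
  have ne2 : zf τ (a + 1 + 1) - zf τ (a + 1) ≠ zf τ (a + 1) - zf τ a := by
    rw [show a + 1 + 1 = a + 2 from rfl, sa, sn]; simp
  obtain ⟨p, hp, hP⟩ := exists_left (n := n) (f := zf τ) (p := a - τ (a + 1)) (q := a)
    (by omega) (by omega) (zf_straight z1) ne1
  obtain ⟨q, hq, hQ⟩ := exists_right (n := n) (f := zf τ) (p := a + 1) (q := a + 1 + τ (a + 1))
    (by omega) (by omega) (by omega) (zf_straight z2) (by simpa using ne2)
  refine ⟨p, q, hP, ⟨by omega, by omega, ?_, ?_⟩, hQ, by omega, by omega, ?_⟩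
  · intro i hi hi'
    have : i = a + 1 - 1 := by omega
    rw [this]
  · intro p' q' hp' hq' hn hs
    simp only [Nat.add_sub_cancel] at hp' ⊢
    constructor
    · by_contra hne
      apply ne1
      have := hs.eq (i := a) (j := a - 1) (by omega) (by omega) (by omega) (by omega)
      rwa [show a - 1 + 1 = a by omega] at this
    · by_contra hne
      apply ne2
      exact hs.eq (i := a + 1) (j := a) (by omega) (by omega) (by omega) (by omega)
  · -- the two ends are adjacent
    have e1 := zz_vert (τ := τ) (i := a - τ (a + 1)) (j := a) (by omega) z1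
    have e2 := zz_vert (τ := τ) (i := a + 1) (j := a + 1 + τ (a + 1)) (by omega) z2
    have e3 : zz τ (a + 1) = ((zz τ a).1 + 1, (zz τ a).2.1, -(zz τ a).2.2) := by
      rw [zz, if_pos hb]
    have c1 : a - (a - τ (a + 1)) = τ (a + 1) := by omega
    have c2 : a + 1 + τ (a + 1) - (a + 1) = τ (a + 1) := by omega
    rw [c1] at e1
    rw [c2, e3, e1] at e2
    simp only [Nat.add_sub_cancel]
    unfold GAdj zf
    rw [e2]
    simp only
    ring_nf

/-- The combinatorial trees are trees. -/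
theorem tG_tree {n : ℕ} {τ : ℕ → ℕ} (hn : 1 ≤ n) (hv : Val n τ) : (tG n τ).IsTree := by
  have hconn : (tG n τ).Connected := by
    have h0 : ∀ k, ∀ h : k < n, (tG n τ).Reachable ⟨0, hn⟩ ⟨k, h⟩ := by
      intro k
      induction k using Nat.strong_induction_on with
      | _ k ih =>
        intro h
        rcases Nat.eq_zero_or_pos k with rfl | hk
        · exact SimpleGraph.Reachable.refl _
        by_cases hb : 0 < τ k
        · obtain ⟨h1, h2, h3⟩ := hv k hb
          have r1 := ih (k - 1 - τ k) (by omega) (by omega)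
          have r2 : (tG n τ).Reachable ⟨k - 1 - τ k, by omega⟩ ⟨k + τ k, h2⟩ :=
            SimpleGraph.Adj.reachable (show tA n τ _ _ from ⟨k, hk, h, Or.inl ⟨by simp only; omega, rfl⟩⟩)
          have r3 : ∀ m, ∀ hm : k + m < n, m ≤ τ k → (tG n τ).Reachable ⟨k + m, hm⟩ ⟨k, h⟩ := by
            intro m
            induction m with
            | zero => intro _ _; exact SimpleGraph.Reachable.refl _
            | succ m ihm =>
              intro hm hm'
              have hz : τ (k + m + 1) = 0 := by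
                by_contra hne
                have := h3 (k + m + 1) (by omega) (by omega)
                omega
              refine SimpleGraph.Reachable.trans (SimpleGraph.Adj.reachable
                (show tA n τ _ _ from ⟨k + m + 1, by omega, hm, Or.inr ⟨?_, ?_⟩⟩))
                (ihm (by omega) (by omega))
              · simp only; omega
              · simp only; omega
          exact (r1.trans r2).trans (r3 (τ k) h2 le_rfl)
        · refine (ih (k - 1) (by omega) (by omega)).trans (SimpleGraph.Adj.reachable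
            (show tA n τ _ _ from ⟨k, hk, h, Or.inl ⟨?_, ?_⟩⟩))
          · simp only; omega
          · simp only; omega
    have : Nonempty (Fin n) := ⟨⟨0, hn⟩⟩
    exact ⟨fun u v => (h0 u.1 u.2).symm.trans (h0 v.1 v.2)⟩
  refine SimpleGraph.isTree_iff_connected_and_card.2 ⟨hconn, ?_⟩
  have hle := hconn.card_vert_le_card_edgeSet_add_one
  have hub : Nat.card (tG n τ).edgeSet ≤ n - 1 := by
    let g : Fin (n - 1) → Sym2 (Fin n) := fun b =>
      s(⟨b - τ (b + 1), by omega⟩, ⟨(b + 1 + τ (b + 1)) % n, Nat.mod_lt _ (by omega)⟩)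
    have hsub : (tG n τ).edgeSet ⊆ g '' Set.univ := by
      intro e
      induction e using Sym2.ind with
      | _ i j =>
        rw [SimpleGraph.mem_edgeSet]
        rintro ⟨b, h1, h2, h3⟩
        refine ⟨⟨b - 1, by omega⟩, trivial, ?_⟩
        have hb : b - 1 + 1 = b := by omega
        have hi := i.2
        have hj := j.2
        simp only [g, hb, Sym2.eq_iff, Fin.ext_iff]
        rcases h3 with h3 | h3
        · left
          rw [Nat.mod_eq_of_lt (by omega)]
          omega
        · right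
          rw [Nat.mod_eq_of_lt (by omega)]
          omega
    calc Nat.card (tG n τ).edgeSet = (tG n τ).edgeSet.ncard := rfl
      _ ≤ (g '' Set.univ).ncard := Set.ncard_le_ncard hsub (Set.toFinite _)
      _ ≤ (Set.univ : Set (Fin (n - 1))).ncard := Set.ncard_image_le
      _ = n - 1 := by simp [Set.ncard_univ]
  simp only [Nat.card_eq_fintype_card, Fintype.card_fin] at hle hub ⊢
  omega

/-- **The combinatorial description of path-like trees.** -/
theorem pathLike_iff {V : Type} (G : SimpleGraph V) :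
    PathLike G ↔ ∃ n τ, 1 ≤ n ∧ Val n τ ∧ Nonempty (G ≃g tG n τ) := by
  constructor
  · rintro ⟨n, f, S, hn, hf, hS, hu, -, hG⟩
    obtain ⟨τ, hv, he⟩ := exists_val hf hS hu
    exact ⟨n, τ, hn, hv, he ▸ hG⟩
  · rintro ⟨n, τ, hn, hv, hG⟩
    have hS : ∀ b t, (b, t) ∈ {x : ℕ × ℕ | 0 < τ x.1 ∧ x.2 = τ x.1} → Elem n (zf τ) b t := by
      rintro b t ⟨h1, h2⟩
      simp only at h1 h2
      rw [h2]; exact zf_elem hv h1
    have hu : ∀ b t t', (b, t) ∈ {x : ℕ × ℕ | 0 < τ x.1 ∧ x.2 = τ x.1} →
        (b, t') ∈ {x : ℕ × ℕ | 0 < τ x.1 ∧ x.2 = τ x.1} → t = t' := by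
      rintro b t t' ⟨-, h2⟩ ⟨-, h2'⟩
      simp only at h2 h2'
      rw [h2, h2']
    have he : resG n {x : ℕ × ℕ | 0 < τ x.1 ∧ x.2 = τ x.1} = tG n τ := by
      have key : ∀ i j : Fin n, (((j : ℕ) = i + 1 ∧ ∀ t, ((i : ℕ) + 1, t) ∉
          {x : ℕ × ℕ | 0 < τ x.1 ∧ x.2 = τ x.1}) ∨
          ∃ b t, (b, t) ∈ {x : ℕ × ℕ | 0 < τ x.1 ∧ x.2 = τ x.1} ∧ (i : ℕ) = b - 1 - t ∧
            (j : ℕ) = b + t) ↔
          ∃ b, 1 ≤ b ∧ b < n ∧ (i : ℕ) + τ b + 1 = b ∧ (j : ℕ) = b + τ b := by
        intro i j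
        constructor
        · rintro (⟨h, h'⟩ | ⟨b, t, ⟨hb, hbt⟩, hi, hj⟩)
          · have : τ (i + 1) = 0 := by
              by_contra hne
              exact h' (τ (i + 1)) ⟨by simp only; omega, rfl⟩
            exact ⟨i + 1, by omega, by have := j.2; omega, by omega, by omega⟩
          · simp only at hb hbt
            have := hv b hb
            exact ⟨b, by omega, by omega, by omega, by omega⟩
        · rintro ⟨b, hb1, hb2, hi, hj⟩
          by_cases hh : 0 < τ b
          · exact Or.inr ⟨b, τ b, ⟨hh, rfl⟩, by omega, by omega⟩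
          · refine Or.inl ⟨by omega, ?_⟩
            have : (i : ℕ) + 1 = b := by omega
            rw [this]
            rintro t ⟨h, -⟩
            exact hh h
      ext i j
      simp only [resG, SimpleGraph.fromRel_adj, tG, key, tA]
      constructor
      · rintro ⟨_, ⟨b, h, h', h''⟩ | ⟨b, h, h', h''⟩⟩
        · exact ⟨b, h, h', Or.inl h''⟩
        · exact ⟨b, h, h', Or.inr h''⟩
      · rintro ⟨b, h, h', h'' | h''⟩
        · exact ⟨fun e => by have := congrArg Fin.val e; omega, Or.inl ⟨b, h, h', h''⟩⟩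
        · exact ⟨fun e => by have := congrArg Fin.val e; omega, Or.inr ⟨b, h, h', h''⟩⟩
    refine ⟨n, zf τ, _, hn, zf_emb τ n, hS, hu, ?_, ?_⟩
    · rw [he]; exact tG_tree hn hv
    · rw [he]; exact hG

end Q224.PL
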