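import Pool.Agent.H671R2.PolyAuto
import Pool.Agent.NPC.Dec
import Pool.Agent.Q224.PL.Comp

/-!
# The test runs in polynomial time
-/

set_option autoImplicit false

namespace Pool.Agent.NPC.Q224PL

open _root_.Q224.PL

variable {α : Type} [TEnc α]

/-- The indices of a list. -/
def rng {β : Type} (l : List β) : List ℕ := List.range l.length

@[fun_prop]
theorem p_rng {β : Type} [TEnc β] {l : α → List β} (hl : Poly l) : Poly (fun a => rng (l a)) :=
  Poly.range_length hl

@[fun_prop]
theorem p_adj {E : α → List (ℕ × ℕ)} {u v : α → ℕ} (hE : Poly E) (hu : Poly u) (hv : Poly v) :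
    Poly (fun a => adj (E a) (u a) (v a)) := by
  unfold adj
  fun_prop

@[fun_prop]
theorem p_clStep {V A : α → List ℕ} {E : α → List (ℕ × ℕ)} {x y : α → ℕ} (hV : Poly V)
    (hE : Poly E) (hx : Poly x) (hy : Poly y) (hA : Poly A) :
    Poly (fun a => clStep (V a) (E a) (x a) (y a) (A a)) := by
  unfold clStep
  fun_prop

theorem sz_filter_le {β : Type} [TEnc β] (l : List β) (p : β → Bool) : sz (l.filter p) ≤ sz l := by
  induction l with
  | nil => simp
  | cons b l ih =>
    rw [List.filter_cons]
    split_ifs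
    · simp only [sz_list_cons]; omega
    · simp only [sz_list_cons]; omega

@[fun_prop]
theorem p_cl {V : α → List ℕ} {E : α → List (ℕ × ℕ)} {r x y : α → ℕ} (hV : Poly V)
    (hE : Poly E) (hr : Poly r) (hx : Poly x) (hy : Poly y) :
    Poly (fun a => cl (V a) (E a) (r a) (x a) (y a)) := by
  unfold cl
  obtain ⟨p, hp⟩ := hV.sz_le
  obtain ⟨q, hq⟩ := (Poly.cons hr (Poly.const ([] : List ℕ))).sz_le
  refine Poly.foldl (F := fun a A _ => clStep (V a) (E a) (x a) (y a) A) hV
    (Poly.cons hr (Poly.const [])) ?_ (p + q) ?_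
  · fun_prop
  · intro a k _
    rw [foldl_iter]
    rcases Nat.eq_zero_or_pos ((V a).take k).length with h | h
    · rw [h]
      simp only [Function.iterate_zero, _root_.id, Polynomial.eval_add]
      exact (hq a).trans (Nat.le_add_left _ _)
    · obtain ⟨m, hm⟩ : ∃ m, ((V a).take k).length = m + 1 :=
        ⟨((V a).take k).length - 1, by omega⟩
      rw [hm, Function.iterate_succ_apply']
      simp only [Polynomial.eval_add]
      exact ((sz_filter_le _ _).trans (hp a)).trans (Nat.le_add_right _ _)

@[fun_prop]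
theorem p_Hs {V : α → List ℕ} {E : α → List (ℕ × ℕ)} {r : α → ℕ} {st : α → St} (hV : Poly V)
    (hE : Poly E) (hr : Poly r) (hs : Poly st) : Poly (fun a => Hs (V a) (E a) (r a) (st a)) := by
  unfold Hs
  exact Poly.optElim (h := fun a (p : ℕ × ℕ × ℕ) => cl (V a) (E a) (r a) p.1 p.2.1) hs
    (Poly.const []) (by fun_prop)

@[fun_prop]
theorem p_goStep {S L : α → List ℕ} {E : α → List (ℕ × ℕ)} (hE : Poly E) (hS : Poly S)
    (hL : Poly L) : Poly (fun a => goStep (E a) (S a) (L a)) := by
  unfold goStep
  exact Poly.optElim (h := fun a v => v :: L a) (by fun_prop) hL (by fun_prop)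

theorem goStep_bd (E : List (ℕ × ℕ)) (S L T : List ℕ) (k : ℕ) (hS : ∀ v ∈ S, v ∈ T)
    (h : L.length ≤ k ∧ ∀ v ∈ L, v ∈ T) :
    (goStep E S L).length ≤ k + 1 ∧ ∀ v ∈ goStep E S L, v ∈ T := by
  unfold goStep
  rcases hh : (S.filter (fun v => !decide (v ∈ L) && adj E (L.head?.getD 0) v)).head? with _ | w
  · exact ⟨by simp only [Option.elim]; omega, h.2⟩
  · have hw := (List.mem_filter.1 (List.mem_of_mem_head? hh)).1
    simp only [Option.elim, List.length_cons]
    refine ⟨by omega, fun v hv => ?_⟩
    rcases List.mem_cons.1 hv with rfl | hv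
    · exact hS _ hw
    · exact h.2 v hv

@[fun_prop]
theorem p_go {V S : α → List ℕ} {E : α → List (ℕ × ℕ)} {s : α → ℕ} (hV : Poly V)
    (hE : Poly E) (hS : Poly S) (hs : Poly s) :
    Poly (fun a => go (V a) (E a) (S a) (s a)) := by
  unfold go
  obtain ⟨p, hp⟩ := hV.sz_le
  obtain ⟨q, hq⟩ := (Poly.cons hs hS).sz_le
  refine Poly.foldl (F := fun a L _ => goStep (E a) (S a) L) hV
    (Poly.cons hs (Poly.const [])) ?_ ((p + 1) * (q + 1) + 1) ?_
  · fun_prop
  · intro a k hk
    rw [foldl_iter]
    have key : ∀ m, ((goStep (E a) (S a))^[m] [s a]).length ≤ m + 1 ∧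
        ∀ v ∈ (goStep (E a) (S a))^[m] [s a], v ∈ s a :: S a := by
      intro m
      induction m with
      | zero => simp
      | succ m ih =>
        rw [Function.iterate_succ_apply']
        exact goStep_bd _ _ _ _ _ (fun v hv => List.mem_cons_of_mem _ hv) ih
    have h1 := key ((V a).take k).length
    have h2 := sz_le_length_mul _ (sz (s a :: S a)) (fun v hv => (sz_le_of_mem (h1.2 v hv)).le)
    have h3 : ((V a).take k).length ≤ (V a).length := by
      rw [List.length_take]; exact min_le_right _ _
    have h4 := length_lt_sz (V a)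
    have h5 := hp a
    have h6 := hq a
    simp only [Polynomial.eval_add, Polynomial.eval_mul, Polynomial.eval_one]
    refine h2.trans ?_
    have h7 : ((goStep (E a) (S a))^[((V a).take k).length] [s a]).length ≤
        p.eval (sz a) + 1 := by omega
    exact Nat.add_le_add_right (Nat.mul_le_mul h7 (by omega)) 1

@[fun_prop]
theorem p_colOK {V H' H : α → List ℕ} {E : α → List (ℕ × ℕ)} {s : α → ℕ} {st : α → St}
    (hV : Poly V) (hE : Poly E) (hH' : Poly H') (hst : Poly st) (hH : Poly H) (hs : Poly s) :
    Poly (fun a => colOK (V a) (E a) (H' a) (st a) (H a) (s a)) := by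
  unfold colOK
  have hS : Poly (fun a => (H a).filter (fun v => !decide (v ∈ H' a))) := by fun_prop
  have hD : Poly (fun a => go (V a) (E a) ((H a).filter (fun v => !decide (v ∈ H' a))) (s a)) :=
    p_go hV hE hS hs
  refine Poly.and (Poly.and (Poly.and ?_ ?_) ?_) (Poly.and ?_ ?_)
  · fun_prop
  · fun_prop
  · fun_prop
  · have : Poly (fun a => ((rng (go (V a) (E a) ((H a).filter
        (fun v => !decide (v ∈ H' a))) (s a))).all (fun i =>
      (rng (go (V a) (E a) ((H a).filter (fun v => !decide (v ∈ H' a))) (s a))).all (fun j =>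
      decide (adj (E a) ((go (V a) (E a) ((H a).filter (fun v => !decide (v ∈ H' a)))
        (s a)).reverse.getD i 0)
        ((go (V a) (E a) ((H a).filter (fun v => !decide (v ∈ H' a))) (s a)).reverse.getD j 0) =
        (decide (j = i + 1) || decide (i = j + 1))))))) := by fun_prop
    exact this
  · refine Poly.optElim (h := fun a (p : ℕ × ℕ × ℕ) => decide ((go (V a) (E a)
      ((H a).filter (fun v => !decide (v ∈ H' a))) (s a)).reverse[p.2.2]? = some p.2.1) &&
      (H' a).all (fun u => (go (V a) (E a) ((H a).filter (fun v => !decide (v ∈ H' a)))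
        (s a)).all (fun v =>
        decide (adj (E a) u v = (decide (u = p.1) && decide (v = p.2.1)))))) hst
      (Poly.const _) ?_
    fun_prop

@[fun_prop]
theorem p_outOK {V H' H : α → List ℕ} {E : α → List (ℕ × ℕ)} {s : α → ℕ} {st : α → St}
    (hV : Poly V) (hE : Poly E) (hH' : Poly H') (hst : Poly st) (hH : Poly H) (hs : Poly s) :
    Poly (fun a => outOK (V a) (E a) (H' a) (st a) (H a) (s a)) := by
  unfold outOK
  refine Poly.optElim (h := fun a (p : ℕ × ℕ × ℕ) => decide ((go (V a) (E a)
    ((H a).filter (fun v => !decide (v ∈ H' a))) (s a))[p.2.2]? = some p.1)) hst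
    (Poly.const _) ?_
  fun_prop

@[fun_prop]
theorem p_states {V : α → List ℕ} (hV : Poly V) : Poly (fun a => states (V a)) := by
  have : Poly (fun a => (V a).flatMap (fun x => (V a).flatMap (fun y => (rng (V a)).map
      (fun t => (some (x, y, t) : St))))) := by fun_prop
  exact this

@[fun_prop]
theorem p_tbStep {V : α → List ℕ} {E : α → List (ℕ × ℕ)} {r : α → ℕ} {T : α → List St}
    (hV : Poly V) (hE : Poly E) (hr : Poly r) (hT : Poly T) :
    Poly (fun a => tbStep (V a) (E a) (r a) (T a)) := by
  unfold tbStep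
  fun_prop

@[fun_prop]
theorem p_tb {V : α → List ℕ} {E : α → List (ℕ × ℕ)} {r : α → ℕ}
    (hV : Poly V) (hE : Poly E) (hr : Poly r) :
    Poly (fun a => tb (V a) (E a) (r a)) := by
  unfold tb
  obtain ⟨p, hp⟩ := (p_states hV).sz_le
  refine Poly.foldl (F := fun a T _ => tbStep (V a) (E a) (r a) T) hV (Poly.const [none]) ?_
    (p + 3) ?_
  · fun_prop
  · intro a k _
    rw [foldl_iter]
    have e3 : (3 : Polynomial ℕ).eval (sz a) = 3 := by simp
    rw [Polynomial.eval_add, e3]
    rcases Nat.eq_zero_or_pos ((V a).take k).length with h | h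
    · rw [h]
      simp
    · obtain ⟨m, hm⟩ : ∃ m, ((V a).take k).length = m + 1 :=
        ⟨((V a).take k).length - 1, by omega⟩
      rw [hm, Function.iterate_succ_apply']
      unfold tbStep
      rw [sz_list_cons, sz_none]
      have := (sz_filter_le (states (V a)) (fun st => List.any
        ((tbStep (V a) (E a) (r a))^[m] [none]) (fun st' => (V a).any (fun s =>
        colOK (V a) (E a) (Hs (V a) (E a) (r a) st') st' (Hs (V a) (E a) (r a) st) s &&
        outOK (V a) (E a) (Hs (V a) (E a) (r a) st') st (Hs (V a) (E a) (r a) st) s)))).trans (hp a)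
      unfold tbStep at this
      omega

theorem p_test : Poly test := by
  unfold test
  fun_prop

/-- **Path-like trees are recognised in polynomial time.** -/
theorem inPP : InPP (fun x : List ℕ × List (ℕ × ℕ) => PathLike (cG x)) :=
  inPP_of p_test (fun x => (test_iff x).symm)

end Pool.Agent.NPC.Q224PL
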